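import Mathlib

set_option autoImplicit false

namespace Pool.Agent.TH589.SC

open MeasureTheory Set Metric Real

/-- the plane -/
abbrev E2 : Type := EuclideanSpace ℝ (Fin 2)

/-- scalar product with the unit vector of angle `φ` -/
noncomputable def dt (x : E2) (φ : ℝ) : ℝ := x 0 * cos φ + x 1 * sin φ

lemma dt_add (x y : E2) (φ : ℝ) : dt (x + y) φ = dt x φ + dt y φ := by
  simp only [dt, PiLp.add_apply]; ring

lemma dt_sub (x y : E2) (φ : ℝ) : dt (x - y) φ = dt x φ - dt y φ := by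
  simp only [dt, PiLp.sub_apply]; ring

lemma dt_smul (t : ℝ) (x : E2) (φ : ℝ) : dt (t • x) φ = t * dt x φ := by
  simp only [dt, PiLp.smul_apply, smul_eq_mul]; ring

lemma dt_neg (x : E2) (φ : ℝ) : dt (-x) φ = - dt x φ := by
  simp only [dt, PiLp.neg_apply]; ring

@[simp] lemma dt_zero (φ : ℝ) : dt 0 φ = 0 := by simp [dt]

lemma dt_add_pi (x : E2) (φ : ℝ) : dt x (φ + π) = - dt x φ := by
  simp only [dt, cos_add_pi, sin_add_pi]; ring

lemma dt_sub_pi (x : E2) (φ : ℝ) : dt x (φ - π) = - dt x φ := by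
  simp only [dt, cos_sub_pi, sin_sub_pi]; ring

lemma dt_add_two_pi (x : E2) (φ : ℝ) : dt x (φ + 2 * π) = dt x φ := by
  simp only [dt, cos_add_two_pi, sin_add_two_pi]

lemma norm_sq (x : E2) : ‖x‖ ^ 2 = x 0 ^ 2 + x 1 ^ 2 := by
  rw [EuclideanSpace.real_norm_sq_eq, Fin.sum_univ_two]

lemma exists_angle (x : E2) : ∃ φ : ℝ, x 0 = ‖x‖ * cos φ ∧ x 1 = ‖x‖ * sin φ := by
  set z : ℂ := ⟨x 0, x 1⟩ with hz
  have h3 : ‖z‖ = ‖x‖ := by
    have h4 : ‖z‖ ^ 2 = ‖x‖ ^ 2 := by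
      rw [norm_sq, ← Complex.normSq_eq_norm_sq, Complex.normSq_mk]; ring
    have := norm_nonneg z
    have := norm_nonneg x
    exact (pow_left_inj₀ (norm_nonneg z) (norm_nonneg x) two_ne_zero).mp h4
  refine ⟨z.arg, ?_, ?_⟩
  · rw [← h3, Complex.norm_mul_cos_arg z]
  · rw [← h3, Complex.norm_mul_sin_arg z]

lemma exists_dt_norm (x : E2) : ∃ φ : ℝ, dt x φ = ‖x‖ := by
  obtain ⟨φ, h0, h1⟩ := exists_angle x
  refine ⟨φ, ?_⟩
  unfold dt
  rw [h0, h1]
  linear_combination ‖x‖ * sin_sq_add_cos_sq φ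

lemma dt_sq_add (x : E2) (φ : ℝ) : dt x φ ^ 2 + dt x (φ + π / 2) ^ 2 = ‖x‖ ^ 2 := by
  rw [norm_sq]
  simp only [dt, cos_add_pi_div_two, sin_add_pi_div_two]
  have h := sin_sq_add_cos_sq φ
  calc _ = (x 0 ^ 2 + x 1 ^ 2) * (sin φ ^ 2 + cos φ ^ 2) := by ring
    _ = _ := by rw [h, mul_one]

lemma abs_dt_le (x : E2) (φ : ℝ) : |dt x φ| ≤ ‖x‖ := by
  apply abs_le_of_sq_le_sq _ (norm_nonneg x)
  have := dt_sq_add x φ
  nlinarith [sq_nonneg (dt x (φ + π / 2))]

lemma dt_le (x : E2) (φ : ℝ) : dt x φ ≤ ‖x‖ := (le_abs_self _).trans (abs_dt_le x φ)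

lemma dt_lip (x : E2) (φ ψ : ℝ) : |dt x φ - dt x ψ| ≤ ‖x‖ * |φ - ψ| := by
  have h1 : dt x φ - dt x ψ = -2 * sin ((φ - ψ) / 2) * (- dt x ((φ + ψ) / 2 + π / 2)) := by
    simp only [dt, cos_add_pi_div_two, sin_add_pi_div_two]
    have a1 : cos φ - cos ψ = -2 * sin ((φ + ψ) / 2) * sin ((φ - ψ) / 2) := cos_sub_cos φ ψ
    have a2 : sin φ - sin ψ = 2 * sin ((φ - ψ) / 2) * cos ((φ + ψ) / 2) := sin_sub_sin φ ψ
    calc _ = x 0 * (cos φ - cos ψ) + x 1 * (sin φ - sin ψ) := by ring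
      _ = _ := by rw [a1, a2]; ring
  rw [h1, abs_mul, abs_mul, abs_neg (dt _ _)]
  have h2 := abs_dt_le x ((φ + ψ) / 2 + π / 2)
  have h3 : |sin ((φ - ψ) / 2)| ≤ |(φ - ψ) / 2| := abs_sin_le_abs
  have h4 : |(-2 : ℝ)| = 2 := by norm_num
  have h5 : |(φ - ψ) / 2| = |φ - ψ| / 2 := by rw [abs_div]; norm_num
  rw [h4]
  rw [h5] at h3
  calc 2 * |sin ((φ - ψ) / 2)| * |dt x ((φ + ψ) / 2 + π / 2)| ≤ 2 * (|φ - ψ| / 2) * ‖x‖ := by
        apply mul_le_mul _ h2 (abs_nonneg _) (by positivity)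
        linarith
    _ = _ := by ring

lemma continuous_dt_left (φ : ℝ) : Continuous (fun x : E2 => dt x φ) := by
  unfold dt; fun_prop

lemma continuous_dt (x : E2) : Continuous (dt x) := by
  unfold dt; fun_prop

lemma continuous_dt2 : Continuous (fun p : E2 × ℝ => dt p.1 p.2) := by
  unfold dt; fun_prop

/-- a vector with given coordinates with respect to the frame of angle `φ` -/
noncomputable def fr (φ a b : ℝ) : E2 := !₂[a * cos φ - b * sin φ, a * sin φ + b * cos φ]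

lemma fr_dt (φ a b ψ : ℝ) : dt (fr φ a b) ψ = a * cos (ψ - φ) + b * sin (ψ - φ) := by
  simp only [dt, fr, cos_sub, sin_sub, PiLp.toLp_apply, Matrix.cons_val_zero, Matrix.cons_val_one]
  ring

lemma fr_self (φ : ℝ) (x : E2) : fr φ (dt x φ) (dt x (φ + π / 2)) = x := by
  have h := sin_sq_add_cos_sq φ
  ext i
  fin_cases i
  · simp only [fr, dt, cos_add_pi_div_two, sin_add_pi_div_two]
    simp
    linear_combination (x 0) * h
  · simp only [fr, dt, cos_add_pi_div_two, sin_add_pi_div_two]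
    simp
    linear_combination (x 1) * h

lemma ext_dt {x y : E2} (φ : ℝ) (h1 : dt x φ = dt y φ) (h2 : dt x (φ + π / 2) = dt y (φ + π / 2)) :
    x = y := by
  rw [← fr_self φ x, ← fr_self φ y, h1, h2]

/-- support function -/
noncomputable def hs (K : Set E2) (φ : ℝ) : ℝ := sSup ((fun x => dt x φ) '' K)

variable {K : Set E2}

lemma bdd (hK : IsCompact K) (φ : ℝ) : BddAbove ((fun x => dt x φ) '' K) :=
  (hK.image (continuous_dt_left φ)).bddAbove

lemma le_hs (hK : IsCompact K) {x : E2} (hx : x ∈ K) (φ : ℝ) : dt x φ ≤ hs K φ :=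
  le_csSup (bdd hK φ) ⟨x, hx, rfl⟩

lemma exists_hs (hK : IsCompact K) (hne : K.Nonempty) (φ : ℝ) : ∃ x ∈ K, dt x φ = hs K φ := by
  obtain ⟨x, hx, h⟩ := (hK.image (continuous_dt_left φ)).sSup_mem (hne.image _)
  exact ⟨x, hx, h⟩

lemma hs_le (hne : K.Nonempty) {φ c : ℝ} (h : ∀ x ∈ K, dt x φ ≤ c) : hs K φ ≤ c := by
  apply csSup_le (hne.image _)
  rintro _ ⟨x, hx, rfl⟩
  exact h x hx

lemma hs_eq (hne : K.Nonempty) {φ c : ℝ} (h : ∀ x ∈ K, dt x φ ≤ c) {x : E2} (hx : x ∈ K)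
    (hc : dt x φ = c) : hs K φ = c := by
  apply le_antisymm (hs_le hne h)
  rw [← hc]
  exact le_csSup ⟨c, by rintro _ ⟨y, hy, rfl⟩; exact h y hy⟩ ⟨x, hx, rfl⟩

lemma hs_mono {K' : Set E2} (hne : K.Nonempty) (hK' : IsCompact K') (h : K ⊆ K') (φ : ℝ) :
    hs K φ ≤ hs K' φ := hs_le hne fun _ hx => le_hs hK' (h hx) φ

lemma hs_add_two_pi (K : Set E2) (φ : ℝ) : hs K (φ + 2 * π) = hs K φ := by
  simp only [hs, dt_add_two_pi]

lemma hs_lip (hK : IsCompact K) (hne : K.Nonempty) {M : ℝ} (hM : ∀ x ∈ K, ‖x‖ ≤ M) (φ ψ : ℝ) :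
    |hs K φ - hs K ψ| ≤ M * |φ - ψ| := by
  have key : ∀ φ ψ : ℝ, hs K φ - hs K ψ ≤ M * |φ - ψ| := by
    intro φ ψ
    obtain ⟨x, hx, h⟩ := exists_hs hK hne φ
    have h1 := le_hs hK hx ψ
    have h2 := le_trans (le_abs_self _) (dt_lip x φ ψ)
    have h3 := mul_le_mul_of_nonneg_right (hM x hx) (abs_nonneg (φ - ψ))
    linarith
  rw [abs_le]
  constructor
  · have := key ψ φ
    rw [abs_sub_comm] at this
    linarith
  · exact key φ ψ

lemma exists_bound (hK : IsCompact K) : ∃ M : ℝ, 0 < M ∧ ∀ x ∈ K, ‖x‖ ≤ M := by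
  obtain ⟨M, hM⟩ := hK.isBounded.exists_norm_le
  exact ⟨max M 1, by positivity, fun x hx => (hM x hx).trans (le_max_left _ _)⟩

lemma continuous_hs (hK : IsCompact K) (hne : K.Nonempty) : Continuous (hs K) := by
  obtain ⟨M, hM0, hM⟩ := exists_bound hK
  have : LipschitzWith (Real.toNNReal M) (hs K) := by
    apply LipschitzWith.of_dist_le_mul
    intro x y
    rw [Real.dist_eq, Real.dist_eq, Real.coe_toNNReal _ hM0.le]
    exact hs_lip hK hne hM x y
  exact this.continuous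

lemma abs_hs_le (hK : IsCompact K) (hne : K.Nonempty) {M : ℝ} (hM : ∀ x ∈ K, ‖x‖ ≤ M) (φ : ℝ) :
    |hs K φ| ≤ M := by
  obtain ⟨x, hx, h⟩ := exists_hs hK hne φ
  rw [← h]
  exact (abs_dt_le x φ).trans (hM x hx)

lemma hs_comb (hK : IsCompact K) (hne : K.Nonempty) {ψ α β a b : ℝ} (ha : 0 ≤ a) (hb : 0 ≤ b)
    (h : ∀ x : E2, dt x ψ = a * dt x α + b * dt x β) : hs K ψ ≤ a * hs K α + b * hs K β := by
  apply hs_le hne
  intro x hx
  rw [h x]
  exact add_le_add (mul_le_mul_of_nonneg_left (le_hs hK hx α) ha)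
    (mul_le_mul_of_nonneg_left (le_hs hK hx β) hb)

/-- a point below the support function belongs to the set -/
lemma mem_of_le_hs (hK : IsCompact K) (hc : Convex ℝ K) {x : E2} (h : ∀ φ, dt x φ ≤ hs K φ)
    (hne : K.Nonempty) : x ∈ K := by
  by_contra hx
  obtain ⟨f, c, hf1, hf2⟩ := geometric_hahn_banach_closed_point hc hK.isClosed hx
  set v : E2 := (InnerProductSpace.toDual ℝ E2).symm f with hv
  have hfv : ∀ y, f y = v 0 * y 0 + v 1 * y 1 := by
    intro y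
    have : f y = inner ℝ v y := by rw [hv, InnerProductSpace.toDual_symm_apply]
    rw [this, PiLp.inner_apply, Fin.sum_univ_two]
    simp [mul_comm]
  obtain ⟨φ, h0, h1⟩ := exists_angle v
  have hfd : ∀ y, f y = ‖v‖ * dt y φ := by
    intro y
    rw [hfv, h0, h1]
    unfold dt
    ring
  obtain ⟨y, hy, hyφ⟩ := exists_hs hK hne φ
  have h3 := hf1 y hy
  rw [hfd, hyφ] at h3
  rw [hfd] at hf2
  have h4 := mul_le_mul_of_nonneg_left (h φ) (norm_nonneg v)
  linarith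

lemma hs_pos_width (hK : IsCompact K) (hi : (interior K).Nonempty) (φ : ℝ) :
    0 < hs K φ + hs K (φ + π) := by
  obtain ⟨x, hx⟩ := hi
  obtain ⟨ε, hε, hb⟩ := Metric.isOpen_iff.mp isOpen_interior x hx
  have h1 : x + fr φ (ε / 2) 0 ∈ K := by
    apply interior_subset
    apply hb
    rw [mem_ball, dist_eq_norm, add_sub_cancel_left]
    have : ‖fr φ (ε / 2) 0‖ ^ 2 = (ε / 2) ^ 2 := by
      rw [← dt_sq_add _ φ, fr_dt, fr_dt]; simp
    have h2 : ‖fr φ (ε / 2) 0‖ = ε / 2 :=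
      (pow_left_inj₀ (norm_nonneg _) (by positivity) two_ne_zero).mp this
    rw [h2]; linarith
  have h2 := le_hs hK h1 φ
  have h3 := le_hs hK (interior_subset hx) (φ + π)
  rw [dt_add, fr_dt] at h2
  rw [dt_add_pi] at h3
  simp at h2
  linarith

/-- the support function of the convex hull of a set and a point -/
lemma hs_hull (hK : IsCompact K) (hc : Convex ℝ K) (hne : K.Nonempty) (x : E2) (φ : ℝ) :
    hs (convexHull ℝ (insert x K)) φ = max (hs K φ) (dt x φ) := by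
  have hne' : (convexHull ℝ (insert x K)).Nonempty :=
    (insert_nonempty x K).mono (subset_convexHull ℝ _)
  have hb : ∀ y ∈ convexHull ℝ (insert x K), dt y φ ≤ max (hs K φ) (dt x φ) := by
    have hconv : Convex ℝ {y : E2 | dt y φ ≤ max (hs K φ) (dt x φ)} := by
      intro a ha b hb s t hs' ht hst
      have ha' : dt a φ ≤ max (hs K φ) (dt x φ) := ha
      have hb' : dt b φ ≤ max (hs K φ) (dt x φ) := hb
      change dt (s • a + t • b) φ ≤ _
      rw [dt_add, dt_smul, dt_smul]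
      have h1 := mul_le_mul_of_nonneg_left ha' hs'
      have h2 := mul_le_mul_of_nonneg_left hb' ht
      have h3 : s = 1 - t := by linarith
      rw [h3] at h1 ⊢
      linarith
    have hsub : insert x K ⊆ {y : E2 | dt y φ ≤ max (hs K φ) (dt x φ)} := by
      intro y hy
      change dt y φ ≤ max (hs K φ) (dt x φ)
      rcases hy with rfl | hy
      · exact le_max_right _ _
      · exact (le_hs hK hy φ).trans (le_max_left _ _)
    intro y hy
    exact convexHull_min hsub hconv hy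
  apply le_antisymm (hs_le hne' hb)
  have hbd : BddAbove ((fun x => dt x φ) '' (convexHull ℝ (insert x K))) :=
    ⟨_, by rintro _ ⟨y, hy, rfl⟩; exact hb y hy⟩
  apply max_le
  · apply hs_le hne
    intro y hy
    exact le_csSup hbd ⟨y, subset_convexHull ℝ _ (mem_insert_of_mem _ hy), rfl⟩
  · exact le_csSup hbd ⟨x, subset_convexHull ℝ _ (mem_insert _ _), rfl⟩

lemma isCompact_hull (hK : IsCompact K) (hc : Convex ℝ K) (hne : K.Nonempty) (x : E2) :
    IsCompact (convexHull ℝ (insert x K)) := by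
  rw [convexHull_insert hne, hc.convexHull_eq]
  have : convexJoin ℝ {x} K = (fun p : ℝ × E2 => (1 - p.1) • x + p.1 • p.2) '' (Icc 0 1 ×ˢ K) := by
    ext y
    rw [mem_convexJoin]
    constructor
    · rintro ⟨a, ha, b, hb, hy⟩
      rw [mem_singleton_iff] at ha
      subst ha
      rw [segment_eq_image] at hy
      obtain ⟨t, ht, rfl⟩ := hy
      exact ⟨(t, b), ⟨ht, hb⟩, rfl⟩
    · rintro ⟨⟨t, b⟩, ⟨ht, hb⟩, rfl⟩
      refine ⟨x, rfl, b, hb, ?_⟩
      rw [segment_eq_image]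
      exact ⟨t, ht, rfl⟩
  rw [this]
  apply (isCompact_Icc.prod hK).image
  fun_prop

end Pool.Agent.TH589.SC
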