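import Mathlib
import Pool.Agent.TH589.SC.Basic

set_option autoImplicit false

namespace Pool.Agent.TH589.SC

open MeasureTheory Metric Set Real
open scoped Pointwise ENNReal

/-- nearest-point projection -/
theorem exists_proj {K : Set E2} (hc : Convex ℝ K) (hK : IsCompact K) (hne : K.Nonempty) :
    ∃ p : E2 → E2, LipschitzWith 1 p ∧
      ∀ u v : E2, v ∈ K → (∀ w ∈ K, inner ℝ (u - v) (w - v) ≤ 0) → p u = v := by
  have h1 := exists_norm_eq_iInf_of_complete_convex hne hK.isComplete hc
  choose p hp1 hp2 using h1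
  have hp3 : ∀ u, ∀ w ∈ K, inner ℝ (u - p u) (w - p u) ≤ 0 := fun u =>
    (norm_eq_iInf_iff_real_inner_le_zero hc (hp1 u)).mp (hp2 u)
  refine ⟨p, ?_, ?_⟩
  · apply LipschitzWith.of_dist_le_mul
    intro x y
    rw [NNReal.coe_one, one_mul, dist_eq_norm, dist_eq_norm]
    have a1 := hp3 x (p y) (hp1 y)
    have a2 := hp3 y (p x) (hp1 x)
    have a3 : ‖p x - p y‖ ^ 2 ≤ inner ℝ (x - y) (p x - p y) := by
      rw [← real_inner_self_eq_norm_sq]
      simp only [inner_sub_left, inner_sub_right] at a1 a2 ⊢
      rw [real_inner_comm (p x) (p y)] at *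
      linarith
    have a4 : inner ℝ (x - y) (p x - p y) ≤ ‖x - y‖ * ‖p x - p y‖ := real_inner_le_norm _ _
    rcases eq_or_lt_of_le (norm_nonneg (p x - p y)) with h | h
    · rw [← h]; exact norm_nonneg _
    · nlinarith
  · intro u v hv h
    have a1 := hp3 u v hv
    have a2 := h (p u) (hp1 u)
    have a3 : ‖p u - v‖ ^ 2 ≤ 0 := by
      rw [← real_inner_self_eq_norm_sq]
      simp only [inner_sub_left, inner_sub_right] at a1 a2 ⊢
      rw [real_inner_comm (p u) v] at *
      linarith
    have a4 : ‖p u - v‖ = 0 := by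
      have := norm_nonneg (p u - v)
      nlinarith
    exact sub_eq_zero.mp (norm_eq_zero.mp a4)

/-- supporting direction at a boundary point -/
theorem exists_support {K : Set E2} (hc : Convex ℝ K) (hi : (interior K).Nonempty) {x : E2}
    (hx : x ∈ frontier K) : ∃ ν : E2, ν ≠ 0 ∧ ∀ w ∈ K, inner ℝ ν (w - x) ≤ 0 := by
  obtain ⟨f, hf⟩ := geometric_hahn_banach_open_point (x := x) hc.interior isOpen_interior hx.2
  set ν := (InnerProductSpace.toDual ℝ E2).symm f with hν
  have hfν : ∀ w, f w = inner ℝ ν w := fun w => by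
    rw [hν, InnerProductSpace.toDual_symm_apply]
  obtain ⟨y, hy⟩ := hi
  refine ⟨ν, ?_, ?_⟩
  · intro h0
    have := hf y hy
    rw [hfν, hfν, h0, inner_zero_left, inner_zero_left] at this
    exact lt_irrefl _ this
  · intro w hw
    rw [inner_sub_right, sub_nonpos, ← hfν, ← hfν]
    have hcl : w ∈ closure (interior K) := by
      rw [hc.closure_interior_eq_closure_of_nonempty_interior ⟨y, hy⟩]
      exact subset_closure hw
    have : closure (interior K) ⊆ {w | f w ≤ f x} :=
      closure_minimal (fun w hw => (hf w hw).le) (isClosed_le f.continuous continuous_const)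
    exact this hcl

/-- last point of a ray in a compact set is a boundary point -/
theorem exists_last {K : Set E2} (hK : IsCompact K) {x ν : E2} (hx : x ∈ K) (hν : ν ≠ 0) :
    ∃ t : ℝ, 0 ≤ t ∧ x + t • ν ∈ frontier K := by
  set S : Set ℝ := {t | 0 ≤ t ∧ x + t • ν ∈ K} with hS
  have hcont : Continuous (fun t : ℝ => x + t • ν) := by fun_prop
  have hSc : IsClosed S := (isClosed_le continuous_const continuous_id).inter (hK.isClosed.preimage hcont)
  have hν' : 0 < ‖ν‖ := norm_pos_iff.mpr hν
  have hSb : Bornology.IsBounded S := by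
    obtain ⟨B, hB⟩ := hK.isBounded.exists_norm_le
    rw [isBounded_iff_forall_norm_le]
    refine ⟨(B + ‖x‖) / ‖ν‖, fun t ht => ?_⟩
    rw [le_div_iff₀ hν']
    have h1 := hB _ ht.2
    have h2 : ‖t‖ * ‖ν‖ = ‖t • ν‖ := (norm_smul t ν).symm
    rw [h2]
    have h3 := norm_sub_le (x + t • ν) x
    rw [add_sub_cancel_left] at h3
    linarith
  have hScomp : IsCompact S := Metric.isCompact_of_isClosed_isBounded hSc hSb
  have hSne : S.Nonempty := ⟨0, le_refl _, by simpa using hx⟩
  obtain ⟨t, ht, htmax⟩ := hScomp.exists_isGreatest hSne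
  refine ⟨t, ht.1, subset_closure ht.2, ?_⟩
  intro hint
  have h1 : ∀ᶠ s in nhds t, x + s • ν ∈ K := by
    have := hcont.continuousAt.preimage_mem_nhds (mem_interior_iff_mem_nhds.mp hint)
    exact this
  have h2 : ∀ᶠ s in nhdsWithin t (Ioi t), x + s • ν ∈ K := h1.filter_mono nhdsWithin_le_nhds
  obtain ⟨s, hs1, hs2⟩ := (h2.and self_mem_nhdsWithin).exists
  have h3 : t < s := hs2
  have h4 : s ∈ S := ⟨ht.1.trans h3.le, hs1⟩
  have h5 : s ≤ t := htmax h4
  exact absurd h3 (not_lt.mpr h5)

/-- **Monotonicity of the perimeter.** -/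
theorem perim_mono {K K' : Set E2} (hc : Convex ℝ K) (hK : IsCompact K) (hi : (interior K).Nonempty)
    (hK' : IsCompact K') (h : K ⊆ K') : (μH[1] : Measure E2) (frontier K) ≤ μH[1] (frontier K') := by
  have hne : K.Nonempty := hi.mono interior_subset
  obtain ⟨p, hp1, hp2⟩ := exists_proj hc hK hne
  have hsub : frontier K ⊆ p '' frontier K' := by
    intro x hx
    have hxK : x ∈ K := hK.isClosed.frontier_subset hx
    obtain ⟨ν, hν, hν2⟩ := exists_support hc hi hx
    obtain ⟨t, ht, ht2⟩ := exists_last hK' (h hxK) hν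
    refine ⟨x + t • ν, ht2, ?_⟩
    apply hp2 _ _ hxK
    intro w hw
    rw [add_sub_cancel_left, inner_smul_left]
    exact mul_nonpos_of_nonneg_of_nonpos (by simpa using ht) (hν2 w hw)
  calc (μH[1] : Measure E2) (frontier K) ≤ μH[1] (p '' frontier K') := measure_mono hsub
    _ ≤ ((1 : NNReal) : ℝ≥0∞) ^ (1:ℝ) * μH[1] (frontier K') := hp1.hausdorffMeasure_image_le zero_le_one _
    _ = μH[1] (frontier K') := by simp

theorem perim_smul {K : Set E2} {t : ℝ} (ht : 0 < t) :
    (μH[1] : Measure E2) (frontier (t • K)) = ENNReal.ofReal t * μH[1] (frontier K) := by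
  have h1 : frontier (t • K) = t • frontier K := by
    have : (t • K) = (Homeomorph.smulOfNeZero t ht.ne') '' K := rfl
    rw [this, ← Homeomorph.image_frontier]
    rfl
  rw [h1, Measure.hausdorffMeasure_smul₀ zero_le_one ht.ne', NNReal.rpow_one]
  rw [ENNReal.smul_def, smul_eq_mul]
  congr 1
  rw [ENNReal.ofReal, Real.nnnorm_of_nonneg ht.le]
  congr 1
  ext
  simp [ht.le]

theorem perim_trans (K : Set E2) (a : E2) :
    (μH[1] : Measure E2) (frontier ((fun x => a + x) '' K)) = μH[1] (frontier K) := by
  have h1 : frontier ((fun x => a + x) '' K) = (fun x => a + x) '' frontier K := by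
    have := (Homeomorph.addLeft a).image_frontier K
    exact this.symm
  rw [h1]
  exact (isometry_add_left a).hausdorffMeasure_image (Or.inl zero_le_one) _

/-- the integral of `|sin|` over a period -/
lemma integral_abs_sin (α : ℝ) : ∫ θ in (0 : ℝ)..(2 * π), |sin (θ - α)| = 4 := by
  have hper : Function.Periodic (fun θ : ℝ => |sin θ|) (2 * π) := by
    intro x
    simp only [sin_add_two_pi]
  have h1 : ∫ θ in (0 : ℝ)..(2 * π), |sin (θ - α)| = ∫ θ in (0 - α)..(2 * π - α), |sin θ| :=
    intervalIntegral.integral_comp_sub_right (fun θ => |sin θ|) α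
  have h2 : ∫ θ in (0 - α)..(2 * π - α), |sin θ| = ∫ θ in (0 : ℝ)..(0 + 2 * π), |sin θ| := by
    have := hper.intervalIntegral_add_eq (0 - α) 0
    rw [← this]
    congr 1
    ring
  have hint : ∀ a b : ℝ, IntervalIntegrable (fun θ => |sin θ|) volume a b := fun a b =>
    (continuous_sin.abs).intervalIntegrable a b
  have h3 : ∫ θ in (0 : ℝ)..(0 + 2 * π), |sin θ| =
      (∫ θ in (0 : ℝ)..π, |sin θ|) + ∫ θ in π..(2 * π), |sin θ| := by
    rw [intervalIntegral.integral_add_adjacent_intervals (hint _ _) (hint _ _), zero_add]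
  have h4 : ∫ θ in (0 : ℝ)..π, |sin θ| = 2 := by
    have : ∫ θ in (0 : ℝ)..π, |sin θ| = ∫ θ in (0 : ℝ)..π, sin θ := by
      apply intervalIntegral.integral_congr
      intro θ hθ
      rw [uIcc_of_le pi_pos.le] at hθ
      exact abs_of_nonneg (sin_nonneg_of_nonneg_of_le_pi hθ.1 hθ.2)
    rw [this, integral_sin]
    norm_num
  have h5 : ∫ θ in π..(2 * π), |sin θ| = 2 := by
    have : ∫ θ in π..(2 * π), |sin θ| = ∫ θ in π..(2 * π), - sin θ := by
      apply intervalIntegral.integral_congr
      intro θ hθ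
      rw [uIcc_of_le (by linarith [pi_pos])] at hθ
      have : sin θ ≤ 0 := by
        have h6 := sin_nonneg_of_nonneg_of_le_pi (x := θ - π) (by linarith [hθ.1])
          (by linarith [hθ.2])
        rw [sin_sub_pi] at h6
        linarith
      exact abs_of_nonpos this
    rw [this, intervalIntegral.integral_neg, integral_sin, cos_pi, cos_two_pi]
    norm_num
  rw [h1, h2, h3, h4, h5]
  norm_num

section polygon

variable {n : ℕ} (al c : Fin n → ℝ)

/-- intersection of half-planes -/
def PP : Set E2 := {x | ∀ k, dt x (al k) ≤ c k}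

/-- the edges -/
def EE (k : Fin n) : Set E2 := {x | x ∈ PP al c ∧ dt x (al k) = c k}

lemma isClosed_PP : IsClosed (PP al c) := by
  have : PP al c = ⋂ k, {x | dt x (al k) ≤ c k} := by
    ext x; simp [PP]
  rw [this]
  exact isClosed_iInter fun k => isClosed_le (continuous_dt_left _) continuous_const

lemma convex_PP : Convex ℝ (PP al c) := by
  intro x hx y hy a b ha hb hab k
  rw [dt_add, dt_smul, dt_smul]
  have h1 := mul_le_mul_of_nonneg_left (hx k) ha
  have h2 := mul_le_mul_of_nonneg_left (hy k) hb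
  have h3 : a = 1 - b := by linarith
  rw [h3] at h1 ⊢
  linarith

lemma isClosed_EE (k : Fin n) : IsClosed (EE al c k) :=
  (isClosed_PP al c).inter (isClosed_eq (continuous_dt_left _) continuous_const)

lemma frontier_PP : frontier (PP al c) = ⋃ k, EE al c k := by
  ext x
  rw [mem_iUnion]
  constructor
  · intro hx
    have hxP : x ∈ PP al c := (isClosed_PP al c).frontier_subset hx
    by_contra hcon
    push Not at hcon
    have hlt : ∀ k, dt x (al k) < c k := fun k =>
      lt_of_le_of_ne (hxP k) fun h => hcon k ⟨hxP, h⟩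
    have hopen : IsOpen {x : E2 | ∀ k, dt x (al k) < c k} := by
      have : {x : E2 | ∀ k, dt x (al k) < c k} = ⋂ k, {x | dt x (al k) < c k} := by
        ext x; simp
      rw [this]
      exact isOpen_iInter_of_finite fun k => isOpen_lt (continuous_dt_left _) continuous_const
    apply hx.2
    rw [mem_interior]
    exact ⟨_, fun y hy k => (hy k).le, hopen, hlt⟩
  · rintro ⟨k, hxP, hk⟩
    refine ⟨subset_closure hxP, fun hint => ?_⟩
    have h1 : ∀ᶠ t in nhds (0 : ℝ), x + fr (al k) t 0 ∈ PP al c := by
      have hcont : Continuous (fun t : ℝ => x + fr (al k) t 0) := by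
        unfold fr; fun_prop
      have h2 : x + fr (al k) 0 0 = x := by
        have : fr (al k) 0 0 = 0 := by
          ext i; fin_cases i <;> simp [fr]
        rw [this, add_zero]
      apply hcont.continuousAt.preimage_mem_nhds
      rw [h2]
      exact mem_interior_iff_mem_nhds.mp hint
    have h2 : ∀ᶠ t in nhdsWithin (0 : ℝ) (Ioi 0), x + fr (al k) t 0 ∈ PP al c :=
      h1.filter_mono nhdsWithin_le_nhds
    obtain ⟨t, ht1, ht2⟩ := (h2.and self_mem_nhdsWithin).exists
    have h3 : 0 < t := ht2
    have h4 := ht1 k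
    rw [dt_add, hk, fr_dt, sub_self, cos_zero, sin_zero] at h4
    linarith

variable {al c}

lemma EE_inter (hP : IsCompact (PP al c)) (hi : (interior (PP al c)).Nonempty)
    {j k : Fin n} (hjk : cos (al j - al k) ≠ 1) : (EE al c j ∩ EE al c k).Subsingleton := by
  intro x hx y hy
  by_cases hsn : sin (al j - al k) = 0
  · exfalso
    have hcos : cos (al j - al k) = -1 := by
      have h := sin_sq_add_cos_sq (al j - al k)
      rw [hsn] at h
      have h2 : (cos (al j - al k) - 1) * (cos (al j - al k) + 1) = 0 := by nlinarith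
      rcases mul_eq_zero.mp h2 with h3 | h3
      · exact absurd (by linarith) hjk
      · linarith
    have hdt : ∀ z : E2, dt z (al j) = - dt z (al k) := by
      intro z
      have h1 : al j = al k + (al j - al k) := by ring
      rw [h1]
      simp only [dt, cos_add, sin_add, hsn, hcos]
      ring
    have hw := hs_pos_width hP hi (al k)
    have hne := hi.mono interior_subset
    have h2 : hs (PP al c) (al k) ≤ c k := hs_le hne fun z hz => hz k
    have h3 : hs (PP al c) (al k + π) ≤ c j := by
      apply hs_le hne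
      intro z hz
      rw [dt_add_pi, ← hdt]
      exact hz j
    have h4 : c j = - c k := by rw [← hx.1.2, ← hx.2.2, hdt]
    linarith
  · have h1 : dt (x - y) (al j) = 0 := by rw [dt_sub, hx.1.2, hy.1.2, sub_self]
    have h2 : dt (x - y) (al k) = 0 := by rw [dt_sub, hx.2.2, hy.2.2, sub_self]
    have h3 : dt (x - y) (al k + π / 2) = 0 := by
      have h4 : dt (x - y) (al j) = cos (al j - al k) * dt (x - y) (al k) +
          sin (al j - al k) * dt (x - y) (al k + π / 2) := by
        have h1 : al j = al k + (al j - al k) := by ring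
        conv_lhs => rw [h1]
        simp only [dt, cos_add (al k) (al j - al k), sin_add (al k) (al j - al k),
          cos_add_pi_div_two, sin_add_pi_div_two]
        ring
      rw [h1, h2, mul_zero, zero_add] at h4
      exact (mul_eq_zero.mp h4.symm).resolve_left hsn
    have h4 : x - y = 0 := by
      apply ext_dt (al k)
      · rw [h2, dt_zero]
      · rw [h3, dt_zero]
    exact sub_eq_zero.mp h4

/-- parameter set of an edge -/
def JJ (al c : Fin n → ℝ) (k : Fin n) : Set ℝ := {t | fr (al k) (c k) t ∈ PP al c}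

lemma EE_eq (k : Fin n) : EE al c k = (fun t => fr (al k) (c k) t) '' JJ al c k := by
  ext x
  constructor
  · rintro ⟨hx, hk⟩
    have h : fr (al k) (c k) (dt x (al k + π / 2)) = x := by rw [← hk]; exact fr_self _ _
    refine ⟨dt x (al k + π / 2), ?_, h⟩
    change fr (al k) (c k) (dt x (al k + π / 2)) ∈ PP al c
    rw [h]; exact hx
  · rintro ⟨t, ht, rfl⟩
    refine ⟨ht, ?_⟩
    change dt (fr (al k) (c k) t) (al k) = c k
    rw [fr_dt, sub_self, cos_zero, sin_zero]; ring

lemma isometry_fr (φ a : ℝ) : Isometry (fun t : ℝ => fr φ a t) := by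
  apply Isometry.of_dist_eq
  intro s t
  rw [dist_eq_norm, Real.dist_eq]
  have h1 : ‖fr φ a s - fr φ a t‖ ^ 2 = |s - t| ^ 2 := by
    rw [← dt_sq_add _ φ, dt_sub, dt_sub, fr_dt, fr_dt, fr_dt, fr_dt, sq_abs]
    simp
  exact (pow_left_inj₀ (norm_nonneg _) (abs_nonneg _) two_ne_zero).mp h1

lemma meas_EE (k : Fin n) : (μH[1] : Measure E2) (EE al c k) = volume (JJ al c k) := by
  rw [EE_eq, (isometry_fr (al k) (c k)).hausdorffMeasure_image (Or.inl zero_le_one),
    hausdorffMeasure_real]

lemma volume_affine (a s : ℝ) (J : Set ℝ) :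
    volume ((fun t : ℝ => a + t * s) '' J) = ENNReal.ofReal |s| * volume J := by
  have h1 : (fun t : ℝ => a + t * s) '' J = (fun y => a + y) '' (s • J) := by
    ext y
    constructor
    · rintro ⟨t, ht, rfl⟩
      exact ⟨s • t, ⟨t, ht, rfl⟩, by simp [mul_comm]⟩
    · rintro ⟨_, ⟨t, ht, rfl⟩, rfl⟩
      exact ⟨t, ht, by simp [mul_comm]⟩
  rw [h1, image_add_left, measure_preimage_add, Measure.addHaar_smul]
  simp

lemma proj_EE (θ : ℝ) (k : Fin n) :
    volume ((fun x => dt x θ) '' EE al c k) =
      ENNReal.ofReal |sin (θ - al k)| * volume (JJ al c k) := by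
  rw [EE_eq, image_image]
  have : (fun t => dt (fr (al k) (c k) t) θ) =
      fun t => c k * cos (θ - al k) + t * sin (θ - al k) := by
    ext t; rw [fr_dt]
  rw [this, volume_affine]

lemma meas_frontier (hP : IsCompact (PP al c)) (hi : (interior (PP al c)).Nonempty)
    (hd : ∀ j k, j ≠ k → cos (al j - al k) ≠ 1) :
    (μH[1] : Measure E2) (frontier (PP al c)) = ∑ k, volume (JJ al c k) := by
  have : NullSingletonClass (μH[1] : Measure E2) := Measure.nullSingletonClass_hausdorff E2 one_pos
  rw [frontier_PP]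
  have h1 : (μH[1] : Measure E2) (⋃ k, EE al c k) = ∑' k, (μH[1] : Measure E2) (EE al c k) := by
    apply measure_iUnion₀
    · intro j k hjk
      exact (EE_inter hP hi (hd j k hjk)).measure_zero _
    · intro k
      exact (isClosed_EE al c k).measurableSet.nullMeasurableSet
  rw [h1, tsum_fintype]
  exact Finset.sum_congr rfl fun k _ => meas_EE k

/-- direction orthogonal to `θ` -/
lemma fr_ne (θ : ℝ) : fr θ 0 1 ≠ 0 := by
  intro h
  have := fr_dt θ 0 1 (θ + π / 2)
  rw [h, dt_zero] at this
  simp at this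

/-- points on a line through an interior point -/
lemma frontier_unique {P : Set E2} (hc : Convex ℝ P) {y ν : E2} (hy : y ∈ interior P) {s t : ℝ}
    (hs : 0 < s) (ht : 0 < t) (h1 : y + s • ν ∈ frontier P) (h2 : y + t • ν ∈ frontier P)
    (hcl : IsClosed P) : s = t := by
  have key : ∀ s t : ℝ, 0 < s → s < t → y + s • ν ∈ frontier P → y + t • ν ∈ frontier P → False := by
    intro s t hs hst h1 h2
    apply h1.2
    have h3 := hc.openSegment_interior_self_subset_interior hy (hcl.frontier_subset h2)
    apply h3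
    have ht : 0 < t := hs.trans hst
    refine ⟨1 - s / t, s / t, ?_, by positivity, by ring, ?_⟩
    · rw [sub_pos, div_lt_one ht]; exact hst
    · rw [smul_add, smul_smul, div_mul_cancel₀ _ ht.ne', ← add_assoc, ← add_smul]
      simp
  rcases lt_trichotomy s t with h | h | h
  · exact (key s t hs h h1 h2).elim
  · exact h
  · exact (key t s ht h h2 h1).elim

lemma exists_interior_level {P : Set E2} (hc : Convex ℝ P) (hP : IsCompact P)
    (hi : (interior P).Nonempty) {θ t : ℝ} (h1 : - hs P (θ + π) < t) (h2 : t < hs P θ) :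
    ∃ y ∈ interior P, dt y θ = t := by
  obtain ⟨z, hz⟩ := hi
  have hne : P.Nonempty := ⟨z, interior_subset hz⟩
  obtain ⟨p, hp, hpθ⟩ := exists_hs hP hne θ
  obtain ⟨q, hq, hqθ⟩ := exists_hs hP hne (θ + π)
  rw [dt_add_pi] at hqθ
  have key : ∀ w ∈ P, (dt z θ ≤ t ∧ t < dt w θ) ∨ (t ≤ dt z θ ∧ dt w θ < t) →
      ∃ y ∈ interior P, dt y θ = t := by
    intro w hw h
    have hne0 : dt w θ - dt z θ ≠ 0 := by
      rcases h with h | h
      · have := h.1; have := h.2; intro h0; linarith
      · have := h.1; have := h.2; intro h0; linarith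
    set l := (t - dt z θ) / (dt w θ - dt z θ) with hl
    have hl0 : 0 ≤ l := by
      rcases h with ⟨ha, hb⟩ | ⟨ha, hb⟩
      · exact div_nonneg (by linarith) (by linarith)
      · exact div_nonneg_of_nonpos (by linarith) (by linarith)
    have hl1 : l < 1 := by
      rcases h with ⟨ha, hb⟩ | ⟨ha, hb⟩
      · rw [hl, div_lt_one (by linarith)]; linarith
      · rw [hl, div_lt_one_of_neg (by linarith)]; linarith
    refine ⟨(1 - l) • z + l • w, ?_, ?_⟩
    · exact hc.combo_interior_self_mem_interior hz hw (by linarith) hl0 (by ring)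
    · rw [dt_add, dt_smul, dt_smul]
      have : l * (dt w θ - dt z θ) = t - dt z θ := by rw [hl]; field_simp
      linarith
  rcases le_total (dt z θ) t with h | h
  · exact key p hp (Or.inl ⟨h, by rw [hpθ]; exact h2⟩)
  · exact key q hq (Or.inr ⟨h, by linarith⟩)

lemma proj_count (hP : IsCompact (PP al c)) (hi : (interior (PP al c)).Nonempty)
    {θ : ℝ} (hθ : ∀ k, sin (al k - θ) ≠ 0) {t : ℝ}
    (ht : ∀ j k, j ≠ k → ∀ x ∈ EE al c j ∩ EE al c k, dt x θ ≠ t)
    (h1 : - hs (PP al c) (θ + π) < t) (h2 : t < hs (PP al c) θ) :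
    ∑ k, ((fun x => dt x θ) '' EE al c k).indicator (1 : ℝ → ℝ≥0∞) t = 2 := by
  classical
  have hc := convex_PP al c
  have hcl := isClosed_PP al c
  obtain ⟨y, hy, hyθ⟩ := exists_interior_level hc hP hi h1 h2
  have hyP := interior_subset hy
  obtain ⟨s2, hs2, hx2⟩ := exists_last hP hyP (fr_ne θ)
  obtain ⟨s1, hs1, hx1⟩ := exists_last hP hyP (neg_ne_zero.mpr (fr_ne θ))
  have hs2' : 0 < s2 := by
    rcases hs2.eq_or_lt with h | h
    · rw [← h, zero_smul, add_zero] at hx2
      exact absurd hy hx2.2
    · exact h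
  have hs1' : 0 < s1 := by
    rcases hs1.eq_or_lt with h | h
    · rw [← h, zero_smul, add_zero] at hx1
      exact absurd hy hx1.2
    · exact h
  have hν : ∀ s : ℝ, dt (y + s • fr θ 0 1) θ = t := by
    intro s
    rw [dt_add, dt_smul, fr_dt, hyθ]; simp
  have hν' : ∀ s : ℝ, dt (y + s • -fr θ 0 1) θ = t := by
    intro s
    rw [dt_add, dt_smul, dt_neg, fr_dt, hyθ]; simp
  have hx2' := hx2
  have hx1' := hx1
  rw [frontier_PP, mem_iUnion] at hx2' hx1'
  obtain ⟨k2, hk2⟩ := hx2'
  obtain ⟨k1, hk1⟩ := hx1'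
  have hne : k1 ≠ k2 := by
    intro h
    subst h
    have e1 := hk1.2
    have e2 := hk2.2
    rw [dt_add, dt_smul, dt_neg, fr_dt] at e1
    rw [dt_add, dt_smul, fr_dt] at e2
    have : (s1 + s2) * sin (al k1 - θ) = 0 := by linarith
    rcases mul_eq_zero.mp this with h | h
    · linarith
    · exact hθ k1 h
  have hmem : ∀ k, t ∈ (fun x => dt x θ) '' EE al c k ↔ k = k1 ∨ k = k2 := by
    intro k
    constructor
    · rintro ⟨x, hx, hxt⟩
      have hxt' : dt x θ = t := hxt
      have hxf : x ∈ frontier (PP al c) := by rw [frontier_PP, mem_iUnion]; exact ⟨k, hx⟩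
      set s := dt x (θ + π / 2) - dt y (θ + π / 2) with hs
      have hxs : x = y + s • fr θ 0 1 := by
        apply ext_dt θ
        · rw [hν, hxt']
        · rw [dt_add, dt_smul, fr_dt, hs]
          simp
      rcases lt_trichotomy s 0 with h | h | h
      · left
        have hxs' : x = y + (-s) • -fr θ 0 1 := by rw [hxs]; simp
        have h3 : -s = s1 := by
          apply frontier_unique hc hy (by linarith) hs1' _ hx1 hcl
          rw [← hxs']; exact hxf
        rw [h3] at hxs'
        by_contra hk
        rw [← hxs'] at hk1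
        exact ht k k1 hk x ⟨hx, hk1⟩ hxt'
      · exfalso
        rw [h, zero_smul, add_zero] at hxs
        rw [hxs] at hxf
        exact hxf.2 hy
      · right
        have h3 : s = s2 := by
          apply frontier_unique hc hy h hs2' _ hx2 hcl
          rw [← hxs]; exact hxf
        rw [h3] at hxs
        by_contra hk
        rw [← hxs] at hk2
        exact ht k k2 hk x ⟨hx, hk2⟩ hxt'
    · rintro (rfl | rfl)
      · exact ⟨_, hk1, hν' s1⟩
      · exact ⟨_, hk2, hν s2⟩
  have hsum : ∀ k, ((fun x => dt x θ) '' EE al c k).indicator (1 : ℝ → ℝ≥0∞) t =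
      (if k = k1 then 1 else 0) + (if k = k2 then 1 else 0) := by
    intro k
    rw [indicator_apply]
    by_cases hk1' : k = k1
    · subst hk1'
      rw [if_pos ((hmem k).mpr (Or.inl rfl)), if_pos rfl, if_neg hne]; simp
    · by_cases hk2' : k = k2
      · subst hk2'
        rw [if_pos ((hmem k).mpr (Or.inr rfl)), if_neg hk1', if_pos rfl]; simp
      · rw [if_neg (fun h => by rcases (hmem k).mp h with h | h <;> contradiction), if_neg hk1',
          if_neg hk2']; simp
  rw [Finset.sum_congr rfl fun k _ => hsum k, Finset.sum_add_distrib, Finset.sum_ite_eq',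
    Finset.sum_ite_eq']
  simp
  norm_num

lemma proj_sum (hP : IsCompact (PP al c)) (hi : (interior (PP al c)).Nonempty)
    (hd : ∀ j k, j ≠ k → cos (al j - al k) ≠ 1)
    {θ : ℝ} (hθ : ∀ k, sin (al k - θ) ≠ 0) :
    ∑ k, volume ((fun x => dt x θ) '' EE al c k) =
      2 * ENNReal.ofReal (hs (PP al c) θ + hs (PP al c) (θ + π)) := by
  have hmeas : ∀ k, MeasurableSet ((fun x => dt x θ) '' EE al c k) := by
    intro k
    have : IsCompact (EE al c k) := hP.of_isClosed_subset (isClosed_EE al c k) fun x hx => hx.1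
    exact (this.image (continuous_dt_left θ)).isClosed.measurableSet
  have hne := hi.mono interior_subset
  set B : Set ℝ := (⋃ j, ⋃ k, ⋃ (_ : j ≠ k), (fun x => dt x θ) '' (EE al c j ∩ EE al c k)) ∪
    {- hs (PP al c) (θ + π), hs (PP al c) θ} with hB
  have hBfin : B.Finite := by
    apply Set.Finite.union
    · apply finite_iUnion; intro j
      apply finite_iUnion; intro k
      apply finite_iUnion; intro hjk
      exact ((EE_inter hP hi (hd j k hjk)).finite).image _
    · exact (finite_singleton _).insert _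
  have hae : ∀ᵐ t : ℝ, t ∉ B := by
    have := hBfin.measure_zero (volume : Measure ℝ)
    exact measure_eq_zero_iff_ae_notMem.mp this
  calc ∑ k, volume ((fun x => dt x θ) '' EE al c k)
      = ∑ k, ∫⁻ t : ℝ, ((fun x => dt x θ) '' EE al c k).indicator (1 : ℝ → ℝ≥0∞) t := by
        apply Finset.sum_congr rfl
        intro k _
        rw [lintegral_indicator_one (hmeas k)]
    _ = ∫⁻ t : ℝ, ∑ k, ((fun x => dt x θ) '' EE al c k).indicator (1 : ℝ → ℝ≥0∞) t := by
        rw [lintegral_finsetSum]
        intro k _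
        exact measurable_one.indicator (hmeas k)
    _ = ∫⁻ t : ℝ, (Ioo (- hs (PP al c) (θ + π)) (hs (PP al c) θ)).indicator
          (fun _ => (2 : ℝ≥0∞)) t := by
        apply lintegral_congr_ae
        filter_upwards [hae] with t ht
        rw [hB, mem_union, not_or] at ht
        obtain ⟨ht1, ht2⟩ := ht
        by_cases hmem : t ∈ Ioo (- hs (PP al c) (θ + π)) (hs (PP al c) θ)
        · rw [indicator_of_mem hmem]
          apply proj_count hP hi hθ _ hmem.1 hmem.2
          intro j k hjk x hx hxt
          apply ht1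
          simp only [mem_iUnion]
          exact ⟨j, k, hjk, x, hx, hxt⟩
        · rw [indicator_of_notMem hmem]
          apply Finset.sum_eq_zero
          intro k _
          apply indicator_of_notMem
          rintro ⟨x, hx, hxt⟩
          have hxt' : dt x θ = t := hxt
          apply hmem
          have h1 := le_hs hP hx.1 θ
          have h2 := le_hs hP hx.1 (θ + π)
          rw [dt_add_pi] at h2
          rw [hxt'] at h1 h2
          refine ⟨lt_of_le_of_ne (by linarith) ?_, lt_of_le_of_ne h1 ?_⟩
          · intro h; apply ht2; rw [← h]; exact mem_insert _ _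
          · intro h; apply ht2; rw [h]; exact mem_insert_of_mem _ rfl
    _ = 2 * ENNReal.ofReal (hs (PP al c) θ + hs (PP al c) (θ + π)) := by
        rw [lintegral_indicator_const measurableSet_Ioo, Real.volume_Ioo]
        congr 2
        ring

/-- Cauchy formula for polygons -/
theorem perim_PP (hP : IsCompact (PP al c)) (hi : (interior (PP al c)).Nonempty)
    (hd : ∀ j k, j ≠ k → cos (al j - al k) ≠ 1) :
    ((μH[1] : Measure E2) (frontier (PP al c))).toReal = ∫ θ in (0 : ℝ)..(2 * π), hs (PP al c) θ ∧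
    (μH[1] : Measure E2) (frontier (PP al c)) ≠ ⊤ := by
  have hne := hi.mono interior_subset
  have hJ : ∀ k, volume (JJ al c k) ≠ ⊤ := by
    intro k
    obtain ⟨M, hM0, hM⟩ := exists_bound hP
    have : JJ al c k ⊆ Icc (-M) M := by
      intro t ht
      have h1 := abs_dt_le (fr (al k) (c k) t) (al k + π / 2)
      have h2 := hM _ ht
      rw [fr_dt] at h1
      simp at h1
      exact abs_le.mp (h1.trans h2)
    exact ne_top_of_le_ne_top (by simp [Real.volume_Icc]) (measure_mono this)
  have hfin : (μH[1] : Measure E2) (frontier (PP al c)) ≠ ⊤ := by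
    rw [meas_frontier hP hi hd]
    exact ENNReal.sum_ne_top.mpr fun k _ => hJ k
  refine ⟨?_, hfin⟩
  have hreal : ∀ θ : ℝ, (∀ k, sin (al k - θ) ≠ 0) →
      ∑ k, |sin (θ - al k)| * (volume (JJ al c k)).toReal =
        2 * (hs (PP al c) θ + hs (PP al c) (θ + π)) := by
    intro θ hθ
    have h1 := proj_sum hP hi hd hθ
    have h2 := congrArg ENNReal.toReal h1
    rw [ENNReal.toReal_sum, ENNReal.toReal_mul, ENNReal.toReal_ofReal (hs_pos_width hP hi θ).le]
      at h2
    · rw [ENNReal.toReal_ofNat] at h2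
      rw [← h2]
      apply Finset.sum_congr rfl
      intro k _
      rw [proj_EE, ENNReal.toReal_mul, ENNReal.toReal_ofReal (abs_nonneg _)]
    · intro k _
      rw [proj_EE]
      exact ENNReal.mul_ne_top ENNReal.ofReal_ne_top (hJ k)
  have hae : ∀ᵐ θ : ℝ, ∀ k, sin (al k - θ) ≠ 0 := by
    rw [ae_all_iff]
    intro k
    have hcount : {θ : ℝ | sin (al k - θ) = 0}.Countable := by
      have : {θ : ℝ | sin (al k - θ) = 0} ⊆ range (fun m : ℤ => al k - m * π) := by
        intro θ hθ
        obtain ⟨m, hm⟩ := sin_eq_zero_iff.mp hθ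
        exact ⟨m, by simp only; linarith⟩
      exact (countable_range _).mono this
    exact measure_eq_zero_iff_ae_notMem.mp (hcount.measure_zero _)
  have hcont := continuous_hs hP hne
  have hper : Function.Periodic (hs (PP al c)) (2 * π) := hs_add_two_pi _
  have e1 : ∫ θ in (0 : ℝ)..(2 * π), ∑ k, |sin (θ - al k)| * (volume (JJ al c k)).toReal =
      ∫ θ in (0 : ℝ)..(2 * π), 2 * (hs (PP al c) θ + hs (PP al c) (θ + π)) := by
    apply intervalIntegral.integral_congr_ae
    filter_upwards [hae] with θ hθ _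
    exact hreal θ hθ
  have e2 : ∫ θ in (0 : ℝ)..(2 * π), ∑ k, |sin (θ - al k)| * (volume (JJ al c k)).toReal =
      4 * ∑ k, (volume (JJ al c k)).toReal := by
    rw [intervalIntegral.integral_finsetSum]
    · rw [Finset.mul_sum]
      apply Finset.sum_congr rfl
      intro k _
      rw [intervalIntegral.integral_mul_const, integral_abs_sin]
    · intro k _
      apply Continuous.intervalIntegrable
      fun_prop
  have e3 : ∫ θ in (0 : ℝ)..(2 * π), hs (PP al c) (θ + π) =
      ∫ θ in (0 : ℝ)..(2 * π), hs (PP al c) θ := by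
    rw [intervalIntegral.integral_comp_add_right (fun θ => hs (PP al c) θ) π]
    have := hper.intervalIntegral_add_eq (0 + π) 0
    rw [zero_add (2 * π)] at this
    rw [← this]
    congr 1
    ring
  have e4 : ∫ θ in (0 : ℝ)..(2 * π), 2 * (hs (PP al c) θ + hs (PP al c) (θ + π)) =
      4 * ∫ θ in (0 : ℝ)..(2 * π), hs (PP al c) θ := by
    rw [intervalIntegral.integral_const_mul, intervalIntegral.integral_add, e3]
    · ring
    · exact hcont.intervalIntegrable _ _
    · exact (hcont.comp (continuous_id.add continuous_const)).intervalIntegrable _ _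
  rw [meas_frontier hP hi hd, ENNReal.toReal_sum fun k _ => hJ k]
  linarith

end polygon

end Pool.Agent.TH589.SC
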