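import Mathlib
import Pool.Agent.TH589.SC.Perim

set_option autoImplicit false

namespace Pool.Agent.TH589.SC

open MeasureTheory Metric Set Real
open scoped Pointwise ENNReal

lemma exists_near {n : ℕ} (hn : 0 < n) (φ : ℝ) :
    ∃ k : Fin n, ∃ ψ : ℝ, |ψ - 2 * π * (k : ℕ) / n| ≤ 2 * π / n ∧ (∀ x : E2, dt x φ = dt x ψ) ∧
      (∀ K : Set E2, hs K φ = hs K ψ) := by
  have hn' : (0 : ℝ) < n := by exact_mod_cast hn
  set q := φ / (2 * π) with hq
  set f := Int.fract q with hf
  have hf0 : 0 ≤ f := Int.fract_nonneg q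
  have hf1 : f < 1 := Int.fract_lt_one q
  have hk0 : 0 ≤ n * f := by positivity
  have hkn : ⌊n * f⌋₊ < n := by
    rw [Nat.floor_lt hk0]
    nlinarith
  have hdt : ∀ x : E2, dt x φ = dt x (2 * π * f) := by
    intro x
    have h1 : φ = 2 * π * f + ⌊q⌋ * (2 * π) := by
      have h2 : q = ⌊q⌋ + f := (Int.floor_add_fract q).symm
      have h3 : φ = 2 * π * q := by rw [hq]; field_simp
      rw [h3]; nth_rewrite 1 [h2]; ring
    rw [h1]
    simp only [dt]
    rw [cos_add_int_mul_two_pi, sin_add_int_mul_two_pi]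
  refine ⟨⟨⌊n * f⌋₊, hkn⟩, 2 * π * f, ?_, hdt, ?_⟩
  · have h1 := Nat.floor_le hk0
    have h2 := (Nat.lt_floor_add_one (n * f)).le
    have h3 : 2 * π * f - 2 * π * (⌊n * f⌋₊ : ℝ) / n = 2 * π / n * (n * f - ⌊n * f⌋₊) := by
      field_simp
    change |2 * π * f - 2 * π * (⌊n * f⌋₊ : ℝ) / n| ≤ 2 * π / n
    rw [h3, abs_mul, abs_of_pos (by positivity)]
    have h4 : |n * f - ⌊n * f⌋₊| ≤ 1 := by
      rw [abs_le]; constructor <;> linarith
    calc 2 * π / n * |n * f - ⌊n * f⌋₊| ≤ 2 * π / n * 1 :=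
          mul_le_mul_of_nonneg_left h4 (by positivity)
      _ = _ := mul_one _
  · intro K
    simp only [hs, hdt]

lemma sandwich {K : Set E2} (hc : Convex ℝ K) (hK : IsCompact K) (h0 : (0 : E2) ∈ interior K)
    {ε : ℝ} (hε : 0 < ε) : ∃ (n : ℕ) (al c : Fin n → ℝ), IsCompact (PP al c) ∧
      (∀ j k, j ≠ k → cos (al j - al k) ≠ 1) ∧ K ⊆ PP al c ∧ PP al c ⊆ (1 + ε) • K := by
  have hne : K.Nonempty := ⟨0, interior_subset h0⟩
  obtain ⟨M, hM0, hM⟩ := exists_bound hK
  obtain ⟨r, hr, hrb⟩ := Metric.isOpen_iff.mp isOpen_interior 0 h0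
  have hhs : ∀ φ, r / 2 ≤ hs K φ := by
    intro φ
    have h1 : fr φ (r / 2) 0 ∈ K := by
      apply interior_subset
      apply hrb
      rw [mem_ball, dist_zero_right]
      have : ‖fr φ (r / 2) 0‖ ^ 2 = (r / 2) ^ 2 := by
        rw [← dt_sq_add _ φ, fr_dt, fr_dt]; simp
      have h2 : ‖fr φ (r / 2) 0‖ = r / 2 :=
        (pow_left_inj₀ (norm_nonneg _) (by positivity) two_ne_zero).mp this
      rw [h2]; linarith
    have h2 := le_hs hK h1 φ
    rw [fr_dt] at h2
    simpa using h2
  obtain ⟨n, hn⟩ := exists_nat_gt (max (4 * π) (16 * π * M / (ε * r)))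
  have hn1 : 4 * π < n := lt_of_le_of_lt (le_max_left _ _) hn
  have hn2 : 16 * π * M / (ε * r) < n := lt_of_le_of_lt (le_max_right _ _) hn
  have hnpos : (0 : ℝ) < n := lt_trans (by positivity) hn1
  have hn0 : 0 < n := by exact_mod_cast hnpos
  have hdelta : 2 * π / n ≤ 1 / 2 := by
    rw [div_le_div_iff₀ hnpos two_pos]; linarith
  set al : Fin n → ℝ := fun k => 2 * π * (k : ℕ) / n with hal
  set c : Fin n → ℝ := fun k => hs K (al k) with hcdef
  have hbasic : ∀ x ∈ PP al c, ∀ φ, dt x φ ≤ hs K φ + (M + ‖x‖) * (2 * π / n) := by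
    intro x hx φ
    obtain ⟨k, ψ, h1, h2, h3⟩ := exists_near hn0 φ
    rw [h2, h3]
    have h4 := hx k
    have h5 := (le_abs_self _).trans (dt_lip x ψ (al k))
    have h6 := (le_abs_self _).trans (hs_lip hK hne hM (al k) ψ)
    have h7 : ‖x‖ * |ψ - al k| ≤ ‖x‖ * (2 * π / n) := mul_le_mul_of_nonneg_left h1 (norm_nonneg _)
    have h8 : M * |al k - ψ| ≤ M * (2 * π / n) := by
      rw [abs_sub_comm]; exact mul_le_mul_of_nonneg_left h1 hM0.le
    have h9 : c k = hs K (al k) := rfl
    rw [h9] at h4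
    linarith
  have hnorm : ∀ x ∈ PP al c, ‖x‖ ≤ 3 * M := by
    intro x hx
    obtain ⟨φ, hφ⟩ := exists_dt_norm x
    have h1 := hbasic x hx φ
    have h2 : hs K φ ≤ M := (le_abs_self _).trans (abs_hs_le hK hne hM φ)
    rw [hφ] at h1
    have h3 : (M + ‖x‖) * (2 * π / n) ≤ (M + ‖x‖) * (1 / 2) :=
      mul_le_mul_of_nonneg_left hdelta (by positivity)
    linarith
  refine ⟨n, al, c, ?_, ?_, ?_, ?_⟩
  · apply Metric.isCompact_of_isClosed_isBounded (isClosed_PP al c)
    rw [isBounded_iff_forall_norm_le]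
    exact ⟨3 * M, hnorm⟩
  · intro j k hjk h
    obtain ⟨m, hm⟩ := (cos_eq_one_iff _).mp h
    have h1 : (m : ℝ) * n = (j : ℕ) - (k : ℕ) := by
      have h2 : (m : ℝ) * (2 * π) = 2 * π * (j : ℕ) / n - 2 * π * (k : ℕ) / n := hm
      field_simp at h2
      linarith
    have h2 : m * n = (j : ℤ) - (k : ℤ) := by exact_mod_cast h1
    have hj := j.2
    have hk := k.2
    have hm0 : m = 0 := by
      by_contra hm0
      rcases lt_or_gt_of_ne hm0 with h3 | h3
      · have : m * n ≤ -1 * n := by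
          apply mul_le_mul_of_nonneg_right _ (by positivity)
          omega
        omega
      · have : 1 * (n : ℤ) ≤ m * n := by
          apply mul_le_mul_of_nonneg_right _ (by positivity)
          omega
        omega
    rw [hm0, zero_mul] at h2
    apply hjk
    apply Fin.ext
    omega
  · intro x hx k
    exact le_hs hK hx _
  · intro x hx
    rw [mem_smul_set_iff_inv_smul_mem₀ (by positivity)]
    apply mem_of_le_hs hK hc _ hne
    intro φ
    rw [dt_smul]
    have h1 := hbasic x hx φ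
    have h2 := hnorm x hx
    have h3 : (M + ‖x‖) * (2 * π / n) ≤ (4 * M) * (2 * π / n) :=
      mul_le_mul_of_nonneg_right (by linarith) (by positivity)
    have h4 : 4 * M * (2 * π / n) ≤ ε * (r / 2) := by
      have h5 : 16 * π * M < n * (ε * r) := by
        rwa [div_lt_iff₀ (by positivity)] at hn2
      rw [show 4 * M * (2 * π / n) = 8 * π * M / n by ring, div_le_iff₀ hnpos]
      nlinarith
    have h5 : ε * (r / 2) ≤ ε * hs K φ := mul_le_mul_of_nonneg_left (hhs φ) hε.le
    rw [inv_mul_le_iff₀ (by positivity)]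
    linarith

lemma cauchy0 {K : Set E2} (hc : Convex ℝ K) (hK : IsCompact K) (h0 : (0 : E2) ∈ interior K) :
    ((μH[1] : Measure E2) (frontier K)).toReal = ∫ θ in (0 : ℝ)..(2 * π), hs K θ ∧
      (μH[1] : Measure E2) (frontier K) ≠ ⊤ := by
  have hne : K.Nonempty := ⟨0, interior_subset h0⟩
  have hi : (interior K).Nonempty := ⟨0, h0⟩
  set p := ((μH[1] : Measure E2) (frontier K)).toReal with hp
  set I := ∫ θ in (0 : ℝ)..(2 * π), hs K θ with hI
  have hp0 : 0 ≤ p := ENNReal.toReal_nonneg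
  have key : ∀ ε : ℝ, 0 < ε → (p ≤ (1 + ε) * I ∧ I ≤ (1 + ε) * p) ∧
      (μH[1] : Measure E2) (frontier K) ≠ ⊤ := by
    intro ε hε
    obtain ⟨n, al, c, hP, hd, h1, h2⟩ := sandwich hc hK h0 hε
    have hiP : (interior (PP al c)).Nonempty := hi.mono (interior_mono h1)
    have hneP := hiP.mono interior_subset
    obtain ⟨e1, e2⟩ := perim_PP hP hiP hd
    have hKε : IsCompact ((1 + ε) • K) := hK.smul _
    have m1 := perim_mono hc hK hi hP h1
    have m2 := perim_mono (convex_PP al c) hP hiP hKε h2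
    rw [perim_smul (by positivity)] at m2
    have hfin : (μH[1] : Measure E2) (frontier K) ≠ ⊤ := ne_top_of_le_ne_top e2 m1
    have r1 : p ≤ ((μH[1] : Measure E2) (frontier (PP al c))).toReal := ENNReal.toReal_mono e2 m1
    have r2 : ((μH[1] : Measure E2) (frontier (PP al c))).toReal ≤ (1 + ε) * p := by
      have := ENNReal.toReal_mono (ENNReal.mul_ne_top ENNReal.ofReal_ne_top hfin) m2
      rwa [ENNReal.toReal_mul, ENNReal.toReal_ofReal (by positivity)] at this
    have hcK := continuous_hs hK hne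
    have hcP := continuous_hs hP hneP
    have i1 : I ≤ ∫ θ in (0 : ℝ)..(2 * π), hs (PP al c) θ := by
      apply intervalIntegral.integral_mono (by positivity) (hcK.intervalIntegrable _ _)
        (hcP.intervalIntegrable _ _)
      intro θ
      exact hs_mono hne hP h1 θ
    have i2 : ∫ θ in (0 : ℝ)..(2 * π), hs (PP al c) θ ≤ (1 + ε) * I := by
      rw [hI, ← intervalIntegral.integral_const_mul]
      apply intervalIntegral.integral_mono (by positivity) (hcP.intervalIntegrable _ _)
      · exact (hcK.const_smul (1 + ε)).intervalIntegrable _ _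
      · intro θ
        apply hs_le hneP
        intro x hx
        obtain ⟨y, hy, rfl⟩ := h2 hx
        change dt ((1 + ε) • y) θ ≤ _
        rw [dt_smul]
        exact mul_le_mul_of_nonneg_left (le_hs hK hy θ) (by positivity)
    rw [e1] at r1 r2
    exact ⟨⟨r1.trans i2, i1.trans r2⟩, hfin⟩
  refine ⟨?_, (key 1 one_pos).2⟩
  have hI0 : 0 ≤ I := by
    have := (key 1 one_pos).1.1
    nlinarith
  apply le_antisymm
  · apply le_of_forall_pos_le_add
    intro δ hδ
    have := (key (δ / (I + 1)) (by positivity)).1.1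
    have h2 : δ / (I + 1) * I ≤ δ := by
      rw [div_mul_eq_mul_div, div_le_iff₀ (by positivity)]; nlinarith
    linarith
  · apply le_of_forall_pos_le_add
    intro δ hδ
    have := (key (δ / (p + 1)) (by positivity)).1.2
    have h2 : δ / (p + 1) * p ≤ δ := by
      rw [div_mul_eq_mul_div, div_le_iff₀ (by positivity)]; nlinarith
    linarith

lemma integral_dt (x : E2) : ∫ θ in (0 : ℝ)..(2 * π), dt x θ = 0 := by
  unfold dt
  rw [intervalIntegral.integral_add, intervalIntegral.integral_const_mul,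
    intervalIntegral.integral_const_mul, integral_cos, integral_sin]
  · simp
  · exact (continuous_const.mul continuous_cos).intervalIntegrable _ _
  · exact (continuous_const.mul continuous_sin).intervalIntegrable _ _

lemma hs_trans {K : Set E2} (hK : IsCompact K) (hne : K.Nonempty) (a : E2) (φ : ℝ) :
    hs ((fun x => a + x) '' K) φ = dt a φ + hs K φ := by
  obtain ⟨x, hx, h⟩ := exists_hs hK hne φ
  apply hs_eq (hne.image _)
  · rintro _ ⟨y, hy, rfl⟩
    rw [dt_add]
    linarith [le_hs hK hy φ]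
  · exact ⟨x, hx, rfl⟩
  · rw [dt_add, h]

/-- **Cauchy's formula** -/
theorem cauchy {K : Set E2} (hc : Convex ℝ K) (hK : IsCompact K) (hi : (interior K).Nonempty) :
    ((μH[1] : Measure E2) (frontier K)).toReal = ∫ θ in (0 : ℝ)..(2 * π), hs K θ := by
  obtain ⟨a, ha⟩ := hi
  have hne : K.Nonempty := ⟨a, interior_subset ha⟩
  set K0 := (fun x => -a + x) '' K with hK0
  have h1 : Convex ℝ K0 := hc.vadd (-a)
  have h2 : IsCompact K0 := hK.image (by fun_prop)
  have h3 : (0 : E2) ∈ interior K0 := by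
    have : interior K0 = (fun x => -a + x) '' interior K :=
      ((Homeomorph.addLeft (-a)).image_interior K).symm
    rw [this]
    exact ⟨a, ha, by simp⟩
  have h4 := (cauchy0 h1 h2 h3).1
  rw [hK0, perim_trans] at h4
  rw [h4]
  have h5 : ∀ θ, hs ((fun x => -a + x) '' K) θ = dt (-a) θ + hs K θ := hs_trans hK hne (-a)
  simp only [h5]
  rw [intervalIntegral.integral_add, integral_dt, zero_add]
  · exact (continuous_dt _).intervalIntegrable _ _
  · exact (continuous_hs hK hne).intervalIntegrable _ _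

end Pool.Agent.TH589.SC
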