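import Mathlib
import Pool.Agent.TH589.SC.Cauchy

set_option autoImplicit false

namespace Pool.Agent.TH589.SC

open MeasureTheory Metric Set Real Filter Topology

/-- perimeter function -/
noncomputable def FF (K : Set E2) (x : E2) : ℝ := ∫ θ in (0 : ℝ)..(2 * π), max (hs K θ) (dt x θ)

/-- perimeter -/
noncomputable def II (K : Set E2) : ℝ := ∫ θ in (0 : ℝ)..(2 * π), hs K θ

noncomputable def aa (h : ℝ → ℝ) (φ β : ℝ) : ℝ := (h (φ + β) + h (φ - β)) / (2 * cos β)

noncomputable def bb (h : ℝ → ℝ) (φ β : ℝ) : ℝ := (h (φ + β) - h (φ - β)) / (2 * sin β)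

/-- intersection of two supporting lines -/
noncomputable def PT (h : ℝ → ℝ) (φ β : ℝ) : E2 := fr φ (aa h φ β) (bb h φ β)

lemma three (x : E2) (α ψ γ : ℝ) :
    sin (γ - α) * dt x ψ = sin (γ - ψ) * dt x α + sin (ψ - α) * dt x γ := by
  simp only [dt, sin_sub]
  ring

lemma dt_PT_self (h : ℝ → ℝ) (φ β : ℝ) : dt (PT h φ β) φ = aa h φ β := by
  rw [PT, fr_dt]; simp

lemma dt_PT_perp (h : ℝ → ℝ) (φ β : ℝ) : dt (PT h φ β) (φ + π / 2) = bb h φ β := by
  rw [PT, fr_dt]; simp

lemma dt_PT_add (h : ℝ → ℝ) (φ : ℝ) {β : ℝ} (h1 : 0 < sin β) (h2 : 0 < cos β) :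
    dt (PT h φ β) (φ + β) = h (φ + β) := by
  rw [PT, fr_dt, aa, bb, add_sub_cancel_left]
  field_simp
  ring

lemma dt_PT_sub (h : ℝ → ℝ) (φ : ℝ) {β : ℝ} (h1 : 0 < sin β) (h2 : 0 < cos β) :
    dt (PT h φ β) (φ - β) = h (φ - β) := by
  rw [PT, fr_dt, aa, bb, sub_sub_cancel_left, cos_neg, sin_neg]
  field_simp
  ring

variable {K : Set E2}

lemma hs_comb' (hK : IsCompact K) (hne : K.Nonempty) {m α β a b c : ℝ} (ha : 0 ≤ a) (hb : 0 ≤ b)
    (h : ∀ x : E2, c * dt x m = a * dt x α + b * dt x β) :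
    c * hs K m ≤ a * hs K α + b * hs K β := by
  obtain ⟨x, hx, hxm⟩ := exists_hs hK hne m
  rw [← hxm, h x]
  exact add_le_add (mul_le_mul_of_nonneg_left (le_hs hK hx α) ha)
    (mul_le_mul_of_nonneg_left (le_hs hK hx β) hb)

lemma sc_pos {β : ℝ} (h0 : 0 < β) (h1 : β < π / 2) : 0 < sin β ∧ 0 < cos β :=
  ⟨sin_pos_of_pos_of_lt_pi h0 (by linarith [pi_pos]), cos_pos_of_mem_Ioo ⟨by linarith, h1⟩⟩

lemma below {φ β ψ : ℝ} (hK : IsCompact K) (hne : K.Nonempty) (h0 : 0 < β) (h1 : β < π / 2)
    (h2 : φ - β ≤ ψ) (h3 : ψ ≤ φ + β) : hs K ψ ≤ dt (PT (hs K) φ β) ψ := by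
  obtain ⟨s1, c1⟩ := sc_pos h0 h1
  have s2 : 0 < sin (φ + β - (φ - β)) := sin_pos_of_pos_of_lt_pi (by linarith) (by linarith)
  have s3 : 0 ≤ sin (φ + β - ψ) := sin_nonneg_of_nonneg_of_le_pi (by linarith) (by linarith)
  have s4 : 0 ≤ sin (ψ - (φ - β)) := sin_nonneg_of_nonneg_of_le_pi (by linarith) (by linarith)
  have e1 := hs_comb' hK hne s3 s4 (fun x => three x (φ - β) ψ (φ + β))
  have e2 := three (PT (hs K) φ β) (φ - β) ψ (φ + β)
  rw [dt_PT_add _ _ s1 c1, dt_PT_sub _ _ s1 c1] at e2
  rw [← e2] at e1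
  exact le_of_mul_le_mul_left e1 s2

lemma above {φ β ψ : ℝ} (hK : IsCompact K) (hi : (interior K).Nonempty) (h0 : 0 < β)
    (h1 : β < π / 2) (h2 : φ + β ≤ ψ) (h3 : ψ ≤ φ - β + 2 * π) :
    dt (PT (hs K) φ β) ψ ≤ hs K ψ := by
  have hne := hi.mono interior_subset
  obtain ⟨s1, c1⟩ := sc_pos h0 h1
  have s2 : 0 < sin (φ + β - (φ - β)) := sin_pos_of_pos_of_lt_pi (by linarith) (by linarith)
  rcases le_total ψ (φ - β + π) with h4 | h4
  · have s3 : 0 ≤ sin (ψ - (φ + β)) := sin_nonneg_of_nonneg_of_le_pi (by linarith) (by linarith)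
    have e1 := hs_comb' hK hne s3 s2.le (fun x => three x (φ - β) (φ + β) ψ)
    have e2 := three (PT (hs K) φ β) (φ - β) (φ + β) ψ
    rw [dt_PT_add _ _ s1 c1, dt_PT_sub _ _ s1 c1] at e2
    rw [e2] at e1
    have e3 : sin (φ + β - (φ - β)) * dt (PT (hs K) φ β) ψ ≤ sin (φ + β - (φ - β)) * hs K ψ := by
      linarith
    exact le_of_mul_le_mul_left e3 s2
  · rcases le_total ψ (φ + β + π) with h5 | h5
    · have e1 := below (φ := φ) (β := β) (ψ := ψ - π) hK hne h0 h1 (by linarith) (by linarith)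
      rw [dt_sub_pi] at e1
      have e2 := hs_pos_width hK hi (ψ - π)
      rw [sub_add_cancel] at e2
      linarith
    · have s3 : 0 ≤ sin (φ - β - (ψ - 2 * π)) :=
        sin_nonneg_of_nonneg_of_le_pi (by linarith) (by linarith)
      have e1 := hs_comb' hK hne s2.le s3 (fun x => three x (ψ - 2 * π) (φ - β) (φ + β))
      have e2 := three (PT (hs K) φ β) (ψ - 2 * π) (φ - β) (φ + β)
      rw [dt_PT_add _ _ s1 c1, dt_PT_sub _ _ s1 c1] at e2
      rw [e2] at e1
      have e3 : sin (φ + β - (φ - β)) * dt (PT (hs K) φ β) (ψ - 2 * π) ≤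
          sin (φ + β - (φ - β)) * hs K (ψ - 2 * π) := by
        linarith
      have e4 := le_of_mul_le_mul_left e3 s2
      rw [← dt_add_two_pi _ (ψ - 2 * π), ← hs_add_two_pi K (ψ - 2 * π), sub_add_cancel] at e4
      exact e4

lemma cont_max (hK : IsCompact K) (hne : K.Nonempty) (x : E2) :
    Continuous (fun θ => max (hs K θ) (dt x θ)) :=
  (continuous_hs hK hne).max (continuous_dt x)

lemma FF_shift (x : E2) (a : ℝ) :
    FF K x = ∫ θ in a..(a + 2 * π), max (hs K θ) (dt x θ) := by
  have hper : Function.Periodic (fun θ => max (hs K θ) (dt x θ)) (2 * π) := by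
    intro θ
    simp only [hs_add_two_pi, dt_add_two_pi]
  have := hper.intervalIntegral_add_eq 0 a
  rw [zero_add] at this
  exact this

lemma II_shift (a : ℝ) : II K = ∫ θ in a..(a + 2 * π), hs K θ := by
  have hper : Function.Periodic (hs K) (2 * π) := hs_add_two_pi K
  have := hper.intervalIntegral_add_eq 0 a
  rw [zero_add] at this
  exact this

lemma integral_dt_arc (x : E2) (φ β : ℝ) :
    ∫ θ in (φ - β)..(φ + β), dt x θ = 2 * sin β * dt x φ := by
  unfold dt
  rw [intervalIntegral.integral_add, intervalIntegral.integral_const_mul,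
    intervalIntegral.integral_const_mul, integral_cos, integral_sin]
  · rw [sin_add, sin_sub, cos_add, cos_sub]; ring
  · exact (continuous_const.mul continuous_cos).intervalIntegrable _ _
  · exact (continuous_const.mul continuous_sin).intervalIntegrable _ _

lemma FF_split (hK : IsCompact K) (hne : K.Nonempty) (x : E2) (φ β : ℝ) :
    FF K x = (∫ θ in (φ - β)..(φ + β), max (hs K θ) (dt x θ)) +
      ∫ θ in (φ + β)..(φ - β + 2 * π), max (hs K θ) (dt x θ) := by
  rw [FF_shift x (φ - β), intervalIntegral.integral_add_adjacent_intervals]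
  · exact (cont_max hK hne x).intervalIntegrable _ _
  · exact (cont_max hK hne x).intervalIntegrable _ _

lemma FF_PT (hK : IsCompact K) (hi : (interior K).Nonempty) {φ β : ℝ} (h0 : 0 < β)
    (h1 : β < π / 2) : FF K (PT (hs K) φ β) =
      2 * sin β * aa (hs K) φ β + ∫ θ in (φ + β)..(φ - β + 2 * π), hs K θ := by
  have hne := hi.mono interior_subset
  rw [FF_split hK hne _ φ β]
  congr 1
  · rw [← dt_PT_self (hs K) φ β, ← integral_dt_arc]
    apply intervalIntegral.integral_congr
    intro θ hθ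
    rw [uIcc_of_le (by linarith)] at hθ
    exact max_eq_right (below hK hne h0 h1 hθ.1 hθ.2)
  · apply intervalIntegral.integral_congr
    intro θ hθ
    rw [uIcc_of_le (by linarith)] at hθ
    exact max_eq_left (above hK hi h0 h1 hθ.1 hθ.2)

/-- subgradient inequality -/
lemma FF_sub (hK : IsCompact K) (hi : (interior K).Nonempty) {φ β : ℝ} (h0 : 0 < β)
    (h1 : β < π / 2) (Q : E2) :
    FF K (PT (hs K) φ β) + 2 * sin β * (dt Q φ - aa (hs K) φ β) ≤ FF K Q := by
  have hne := hi.mono interior_subset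
  have hch := continuous_hs hK hne
  rw [FF_PT hK hi h0 h1, FF_split hK hne Q φ β]
  have e1 : 2 * sin β * dt Q φ ≤ ∫ θ in (φ - β)..(φ + β), max (hs K θ) (dt Q θ) := by
    rw [← integral_dt_arc]
    apply intervalIntegral.integral_mono (by linarith) ((continuous_dt Q).intervalIntegrable _ _)
      ((cont_max hK hne Q).intervalIntegrable _ _)
    intro θ
    exact le_max_right _ _
  have e2 : ∫ θ in (φ + β)..(φ - β + 2 * π), hs K θ ≤
      ∫ θ in (φ + β)..(φ - β + 2 * π), max (hs K θ) (dt Q θ) := by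
    apply intervalIntegral.integral_mono (by linarith) (hch.intervalIntegrable _ _)
      ((cont_max hK hne Q).intervalIntegrable _ _)
    intro θ
    exact le_max_left _ _
  linarith

lemma integral_lt_of_point {f g : ℝ → ℝ} {a b x : ℝ} (hab : a < b) (hf : Continuous f)
    (hg : Continuous g) (h : ∀ y, f y ≤ g y) (hx : x ∈ Icc a b) (hlt : f x < g x) :
    ∫ θ in a..b, f θ < ∫ θ in a..b, g θ := by
  have h1 : 0 < ∫ θ in a..b, (g θ - f θ) :=
    intervalIntegral.integral_pos hab ((hg.sub hf).continuousOn)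
      (fun y _ => sub_nonneg.mpr (h y)) ⟨x, hx, sub_pos.mpr hlt⟩
  rw [intervalIntegral.integral_sub (hg.intervalIntegrable _ _) (hf.intervalIntegrable _ _)] at h1
  linarith

lemma FF_strict (hK : IsCompact K) (hi : (interior K).Nonempty) {φ β : ℝ} (h0 : 0 < β)
    (h1 : β < π / 2) {Q : E2} (hQ : dt Q φ = aa (hs K) φ β) (hne' : Q ≠ PT (hs K) φ β) :
    FF K (PT (hs K) φ β) < FF K Q := by
  have hne := hi.mono interior_subset
  have hch := continuous_hs hK hne
  obtain ⟨s1, c1⟩ := sc_pos h0 h1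
  rw [FF_PT hK hi h0 h1, FF_split hK hne Q φ β]
  have e1 : 2 * sin β * aa (hs K) φ β ≤ ∫ θ in (φ - β)..(φ + β), max (hs K θ) (dt Q θ) := by
    rw [← hQ, ← integral_dt_arc]
    apply intervalIntegral.integral_mono (by linarith) ((continuous_dt Q).intervalIntegrable _ _)
      ((cont_max hK hne Q).intervalIntegrable _ _)
    intro θ
    exact le_max_right _ _
  have e2 : ∫ θ in (φ + β)..(φ - β + 2 * π), hs K θ <
      ∫ θ in (φ + β)..(φ - β + 2 * π), max (hs K θ) (dt Q θ) := by
    set s := dt Q (φ + π / 2) - bb (hs K) φ β with hs'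
    have hs0 : s ≠ 0 := by
      intro h
      apply hne'
      apply ext_dt φ
      · rw [hQ, dt_PT_self]
      · rw [dt_PT_perp]; linarith
    have hQs : Q = PT (hs K) φ β + fr φ 0 s := by
      apply ext_dt φ
      · rw [dt_add, dt_PT_self, fr_dt, hQ]; simp
      · rw [dt_add, dt_PT_perp, fr_dt]; simp [hs']
    rcases lt_or_gt_of_ne hs0 with h | h
    · apply integral_lt_of_point (x := φ - β + 2 * π) (by linarith) hch (cont_max hK hne Q)
        (fun y => le_max_left _ _) ⟨by linarith, le_rfl⟩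
      apply lt_max_of_lt_right
      rw [hs_add_two_pi, dt_add_two_pi, hQs, dt_add, dt_PT_sub _ _ s1 c1, fr_dt,
        sub_sub_cancel_left, sin_neg]
      nlinarith
    · apply integral_lt_of_point (x := φ + β) (by linarith) hch (cont_max hK hne Q)
        (fun y => le_max_left _ _) ⟨le_rfl, by linarith⟩
      apply lt_max_of_lt_right
      rw [hQs, dt_add, dt_PT_add _ _ s1 c1, fr_dt, add_sub_cancel_left]
      nlinarith
  linarith

lemma II_le_FF (hK : IsCompact K) (hne : K.Nonempty) (x : E2) : II K ≤ FF K x := by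
  apply intervalIntegral.integral_mono (by positivity)
    ((continuous_hs hK hne).intervalIntegrable _ _) ((cont_max hK hne x).intervalIntegrable _ _)
  intro θ
  exact le_max_left _ _

lemma FF_of_mem (hK : IsCompact K) {x : E2} (hx : x ∈ K) : FF K x = II K := by
  apply intervalIntegral.integral_congr
  intro θ _
  exact max_eq_left (le_hs hK hx θ)

lemma FF_upper (hK : IsCompact K) (hne : K.Nonempty) {M : ℝ} (hM : ∀ x ∈ K, ‖x‖ ≤ M) (x : E2) :
    FF K x ≤ 2 * π * (M + ‖x‖) := by
  have h1 : FF K x ≤ ∫ θ in (0 : ℝ)..(2 * π), (M + ‖x‖) := by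
    have hM0 : 0 ≤ M := by
      obtain ⟨y, hy⟩ := hne
      exact (norm_nonneg y).trans (hM y hy)
    apply intervalIntegral.integral_mono (by positivity) ((cont_max hK hne x).intervalIntegrable _ _)
      (continuous_const.intervalIntegrable _ _)
    intro θ
    apply max_le
    · have := (le_abs_self _).trans (abs_hs_le hK hne hM θ)
      linarith [norm_nonneg x]
    · linarith [dt_le x θ]
  rw [intervalIntegral.integral_const] at h1
  simpa [smul_eq_mul] using h1

lemma integral_abs_dt (x : E2) : ∫ θ in (0 : ℝ)..(2 * π), |dt x θ| = 4 * ‖x‖ := by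
  obtain ⟨φ, h0, h1⟩ := exists_angle x
  have h2 : ∀ θ, |dt x θ| = ‖x‖ * |sin (θ - (φ - π / 2))| := by
    intro θ
    have h3 : dt x θ = ‖x‖ * sin (θ - (φ - π / 2)) := by
      rw [show θ - (φ - π / 2) = (θ - φ) + π / 2 by ring, sin_add_pi_div_two, cos_sub]
      unfold dt
      rw [h0, h1]
      ring
    rw [h3, abs_mul, abs_norm]
  simp only [h2]
  rw [intervalIntegral.integral_const_mul, integral_abs_sin]
  ring

lemma FF_lower (hK : IsCompact K) (hne : K.Nonempty) {M : ℝ} (hM : ∀ x ∈ K, ‖x‖ ≤ M) (x : E2) :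
    2 * ‖x‖ - 2 * π * M ≤ FF K x := by
  have hM0 : 0 ≤ M := by
    obtain ⟨y, hy⟩ := hne
    exact (norm_nonneg y).trans (hM y hy)
  have hc1 := continuous_dt x
  have h1 : ∫ θ in (0 : ℝ)..(2 * π), ((dt x θ + |dt x θ|) / 2 - M) ≤ FF K x := by
    apply intervalIntegral.integral_mono (by positivity) _ ((cont_max hK hne x).intervalIntegrable _ _)
    · intro θ
      have h2 := (abs_le.mp (abs_hs_le hK hne hM θ)).1
      change (dt x θ + |dt x θ|) / 2 - M ≤ max (hs K θ) (dt x θ)
      rcases le_total 0 (dt x θ) with h3 | h3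
      · rw [abs_of_nonneg h3]
        apply le_max_of_le_right; linarith
      · rw [abs_of_nonpos h3]
        apply le_max_of_le_left; linarith
    · apply Continuous.intervalIntegrable
      fun_prop
  have h2 : ∫ θ in (0 : ℝ)..(2 * π), ((dt x θ + |dt x θ|) / 2 - M) = 2 * ‖x‖ - 2 * π * M := by
    rw [intervalIntegral.integral_sub, intervalIntegral.integral_div, intervalIntegral.integral_add,
      integral_dt, integral_abs_dt, intervalIntegral.integral_const]
    · simp only [smul_eq_mul]; ring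
    · exact hc1.intervalIntegrable _ _
    · exact hc1.abs.intervalIntegrable _ _
    · apply Continuous.intervalIntegrable
      fun_prop
    · exact continuous_const.intervalIntegrable _ _
  linarith

lemma FF_lip (hK : IsCompact K) (hne : K.Nonempty) (x y : E2) :
    FF K x ≤ FF K y + 2 * π * ‖x - y‖ := by
  have h1 : FF K x ≤ ∫ θ in (0 : ℝ)..(2 * π), (max (hs K θ) (dt y θ) + ‖x - y‖) := by
    apply intervalIntegral.integral_mono (by positivity) ((cont_max hK hne x).intervalIntegrable _ _)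
    · exact ((cont_max hK hne y).add continuous_const).intervalIntegrable _ _
    · intro θ
      have h2 := dt_le (x - y) θ
      rw [dt_sub] at h2
      apply max_le
      · have := le_max_left (hs K θ) (dt y θ)
        change hs K θ ≤ max (hs K θ) (dt y θ) + ‖x - y‖
        linarith [norm_nonneg (x - y)]
      · have := le_max_right (hs K θ) (dt y θ)
        change dt x θ ≤ max (hs K θ) (dt y θ) + ‖x - y‖
        linarith
  rw [intervalIntegral.integral_add ((cont_max hK hne y).intervalIntegrable _ _)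
    (continuous_const.intervalIntegrable _ _), intervalIntegral.integral_const] at h1
  simpa [FF, smul_eq_mul] using h1

lemma continuous_FF (hK : IsCompact K) (hne : K.Nonempty) : Continuous (FF K) := by
  have : LipschitzWith (Real.toNNReal (2 * π)) (FF K) := by
    apply LipschitzWith.of_dist_le_mul
    intro x y
    rw [Real.dist_eq, dist_eq_norm, Real.coe_toNNReal _ (by positivity), abs_le]
    have h1 := FF_lip hK hne x y
    have h2 := FF_lip hK hne y x
    rw [norm_sub_rev] at h2
    constructor <;> linarith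
  exact this.continuous

lemma FF_convex (hK : IsCompact K) (hne : K.Nonempty) (x y : E2) {a b : ℝ} (ha : 0 ≤ a)
    (hb : 0 ≤ b) (hab : a + b = 1) : FF K (a • x + b • y) ≤ a * FF K x + b * FF K y := by
  unfold FF
  rw [← intervalIntegral.integral_const_mul, ← intervalIntegral.integral_const_mul,
    ← intervalIntegral.integral_add]
  · apply intervalIntegral.integral_mono (by positivity) ((cont_max hK hne _).intervalIntegrable _ _)
    · exact ((continuous_const.mul (cont_max hK hne x)).add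
        (continuous_const.mul (cont_max hK hne y))).intervalIntegrable _ _
    · intro θ
      have h1 := mul_le_mul_of_nonneg_left (le_max_left (hs K θ) (dt x θ)) ha
      have h2 := mul_le_mul_of_nonneg_left (le_max_right (hs K θ) (dt x θ)) ha
      have h3 := mul_le_mul_of_nonneg_left (le_max_left (hs K θ) (dt y θ)) hb
      have h4 := mul_le_mul_of_nonneg_left (le_max_right (hs K θ) (dt y θ)) hb
      apply max_le
      · change hs K θ ≤ a * max (hs K θ) (dt x θ) + b * max (hs K θ) (dt y θ)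
        have : hs K θ = a * hs K θ + b * hs K θ := by rw [← add_mul, hab, one_mul]
        linarith
      · rw [dt_add, dt_smul, dt_smul]
        change _ ≤ a * max (hs K θ) (dt x θ) + b * max (hs K θ) (dt y θ)
        linarith
  · exact (continuous_const.mul (cont_max hK hne x)).intervalIntegrable _ _
  · exact (continuous_const.mul (cont_max hK hne y)).intervalIntegrable _ _

/-- level sets -/
def LL (K : Set E2) (l : ℝ) : Set E2 := {x | FF K x ≤ l}

lemma isCompact_LL (hK : IsCompact K) (hne : K.Nonempty) (l : ℝ) : IsCompact (LL K l) := by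
  apply Metric.isCompact_of_isClosed_isBounded
  · exact isClosed_le (continuous_FF hK hne) continuous_const
  · obtain ⟨M, hM0, hM⟩ := exists_bound hK
    rw [isBounded_iff_forall_norm_le]
    refine ⟨(l + 2 * π * M) / 2, fun x hx => ?_⟩
    have h1 := FF_lower hK hne hM x
    have h2 : FF K x ≤ l := hx
    linarith

lemma convex_LL (hK : IsCompact K) (hne : K.Nonempty) (l : ℝ) : Convex ℝ (LL K l) := by
  intro x hx y hy a b ha hb hab
  have h1 := FF_convex hK hne x y ha hb hab
  have h2 := mul_le_mul_of_nonneg_left (show FF K x ≤ l from hx) ha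
  have h3 := mul_le_mul_of_nonneg_left (show FF K y ≤ l from hy) hb
  change FF K (a • x + b • y) ≤ l
  have : l = a * l + b * l := by rw [← add_mul, hab, one_mul]
  linarith

lemma sub_LL (hK : IsCompact K) {l : ℝ} (hl : II K ≤ l) : K ⊆ LL K l := by
  intro x hx
  change FF K x ≤ l
  rw [FF_of_mem hK hx]; exact hl

lemma interior_LL (hK : IsCompact K) (hi : (interior K).Nonempty) {l : ℝ} (hl : II K ≤ l) :
    (interior (LL K l)).Nonempty := hi.mono (interior_mono (sub_LL hK hl))

/-- existence of the angle -/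
lemma exists_beta (hK : IsCompact K) (hi : (interior K).Nonempty) (φ : ℝ) {l : ℝ} (hl : II K < l) :
    ∃ β : ℝ, 0 < β ∧ β < π / 2 ∧ FF K (PT (hs K) φ β) = l := by
  have hne := hi.mono interior_subset
  have hch := continuous_hs hK hne
  set G : ℝ → ℝ := fun β => tan β * (hs K (φ + β) + hs K (φ - β)) +
    ∫ θ in (φ + β)..(φ - β + 2 * π), hs K θ with hG
  have hFG : ∀ β, 0 < β → β < π / 2 → FF K (PT (hs K) φ β) = G β := by
    intro β h0 h1
    obtain ⟨s1, c1⟩ := sc_pos h0 h1
    rw [FF_PT hK hi h0 h1, hG]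
    simp only
    congr 1
    rw [aa, tan_eq_sin_div_cos]
    field_simp
  have hint : Continuous (fun β : ℝ => ∫ θ in (φ + β)..(φ - β + 2 * π), hs K θ) := by
    have h1 : ∀ β : ℝ, ∫ θ in (φ + β)..(φ - β + 2 * π), hs K θ =
        (∫ θ in (0 : ℝ)..(φ - β + 2 * π), hs K θ) - ∫ θ in (0 : ℝ)..(φ + β), hs K θ := by
      intro β
      rw [intervalIntegral.integral_interval_sub_left (hch.intervalIntegrable _ _)
        (hch.intervalIntegrable _ _)]
    simp only [h1]
    have h2 : Continuous (fun x : ℝ => ∫ θ in (0 : ℝ)..x, hs K θ) :=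
      intervalIntegral.continuous_primitive (fun a b => hch.intervalIntegrable a b) 0
    apply Continuous.sub
    · exact h2.comp (by fun_prop)
    · exact h2.comp (by fun_prop)
  have hG0 : G 0 = II K := by
    simp only [hG]
    rw [tan_zero, zero_mul, zero_add, add_zero, sub_zero, ← II_shift φ]
  have htop : Tendsto G (𝓝[<] (π / 2)) atTop := by
    have h1 : Tendsto (fun β : ℝ => hs K (φ + β) + hs K (φ - β)) (𝓝[<] (π / 2))
        (𝓝 (hs K (φ + π / 2) + hs K (φ - π / 2))) := by
      apply Tendsto.mono_left _ nhdsWithin_le_nhds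
      apply Continuous.tendsto (f := fun β : ℝ => hs K (φ + β) + hs K (φ - β))
      fun_prop
    have h2 : 0 < hs K (φ + π / 2) + hs K (φ - π / 2) := by
      have := hs_pos_width hK hi (φ - π / 2)
      rw [show φ - π / 2 + π = φ + π / 2 by ring] at this
      linarith
    have h3 := Real.tendsto_tan_pi_div_two.atTop_mul_pos h2 h1
    have h4 : Tendsto (fun β : ℝ => ∫ θ in (φ + β)..(φ - β + 2 * π), hs K θ) (𝓝[<] (π / 2))
        (𝓝 (∫ θ in (φ + π / 2)..(φ - π / 2 + 2 * π), hs K θ)) :=
      (hint.tendsto (π / 2)).mono_left nhdsWithin_le_nhds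
    exact h3.atTop_add h4
  have hev : ∀ᶠ β in 𝓝[<] (π / 2), l < G β := htop.eventually_gt_atTop l
  have hev2 : ∀ᶠ β in 𝓝[<] (π / 2), β ∈ Ioo (0 : ℝ) (π / 2) :=
    Ioo_mem_nhdsLT (by positivity)
  obtain ⟨β2, h1, h2⟩ := (hev.and hev2).exists
  have hcont : ContinuousOn G (Icc 0 β2) := by
    apply ContinuousOn.add
    · apply ContinuousOn.mul
      · apply continuousOn_tan_Ioo.mono
        intro β hβ
        exact ⟨by linarith [hβ.1, pi_pos], lt_of_le_of_lt hβ.2 h2.2⟩
      · apply Continuous.continuousOn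
        fun_prop
    · exact hint.continuousOn
  have himg := intermediate_value_Icc h2.1.le hcont
  obtain ⟨β, hβ1, hβ2⟩ := himg ⟨by rw [hG0]; exact hl.le, h1.le⟩
  have hβ0 : 0 < β := by
    rcases hβ1.1.eq_or_lt with h | h
    · rw [← h, hG0] at hβ2
      exact absurd hβ2 hl.ne
    · exact h
  have hβ3 : β < π / 2 := lt_of_le_of_lt hβ1.2 h2.2
  exact ⟨β, hβ0, hβ3, by rw [hFG β hβ0 hβ3, hβ2]⟩

/-- support function of the level set -/
lemma hs_LL (hK : IsCompact K) (hi : (interior K).Nonempty) {φ β l : ℝ} (h0 : 0 < β)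
    (h1 : β < π / 2) (h : FF K (PT (hs K) φ β) = l) : hs (LL K l) φ = aa (hs K) φ β := by
  obtain ⟨s1, c1⟩ := sc_pos h0 h1
  have hmem : PT (hs K) φ β ∈ LL K l := h.le
  apply hs_eq ⟨_, hmem⟩ _ hmem (dt_PT_self _ _ _)
  intro x hx
  have h2 := FF_sub (φ := φ) hK hi h0 h1 x
  rw [h] at h2
  have h3 : FF K x ≤ l := hx
  have h4 : 2 * sin β * (dt x φ - aa (hs K) φ β) ≤ 0 := by linarith
  by_contra hcon
  push Not at hcon
  have : 0 < 2 * sin β * (dt x φ - aa (hs K) φ β) := by
    apply mul_pos (by positivity); linarith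
  linarith

end Pool.Agent.TH589.SC
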