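import Mathlib
import Pool.Agent.TH589.SC.Fun

set_option autoImplicit false

namespace Pool.Agent.TH589.SC

open MeasureTheory Metric Set Real Filter Topology

/-- the transitivity property in terms of the perimeter functions -/
def Tr (K : Set E2) : Prop := ∀ l1 : ℝ, II K < l1 → ∀ l2 : ℝ, II (LL K l1) < l2 →
  ∃ l3 : ℝ, {y : E2 | FF (LL K l1) y = l2} = {y : E2 | FF K y = l3}

variable {K : Set E2}

lemma bb_bound (hK : IsCompact K) (hne : K.Nonempty) {M : ℝ} (hM : ∀ x ∈ K, ‖x‖ ≤ M) (φ : ℝ)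
    {β : ℝ} (h0 : 0 < β) (h1 : β < π / 2) : |bb (hs K) φ β| ≤ M * (π / 2) := by
  obtain ⟨s1, c1⟩ := sc_pos h0 h1
  have hM0 : 0 ≤ M := by
    obtain ⟨y, hy⟩ := hne
    exact (norm_nonneg y).trans (hM y hy)
  have h2 := hs_lip hK hne hM (φ + β) (φ - β)
  rw [show φ + β - (φ - β) = 2 * β by ring, abs_of_pos (show 0 < 2 * β by linarith)] at h2
  have h3 : 2 / π * β ≤ sin β := mul_le_sin h0.le h1.le
  rw [bb, abs_div, abs_of_pos (show 0 < 2 * sin β by positivity), div_le_iff₀ (by positivity)]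
  have h4 : β ≤ π / 2 * sin β := by
    have : π / 2 * (2 / π * β) = β := by field_simp
    nlinarith [pi_pos]
  calc |hs K (φ + β) - hs K (φ - β)| ≤ M * (2 * β) := h2
    _ ≤ M * (2 * (π / 2 * sin β)) := by
      apply mul_le_mul_of_nonneg_left _ hM0; linarith
    _ = _ := by ring

lemma aa_cos_bound (hK : IsCompact K) (hne : K.Nonempty) {M : ℝ} (hM : ∀ x ∈ K, ‖x‖ ≤ M) (φ : ℝ)
    {β : ℝ} (h0 : 0 < β) (h1 : β < π / 2) : |aa (hs K) φ β| * cos β ≤ M := by
  obtain ⟨s1, c1⟩ := sc_pos h0 h1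
  have h2 := abs_hs_le hK hne hM (φ + β)
  have h3 := abs_hs_le hK hne hM (φ - β)
  rw [aa, abs_div, abs_of_pos (show 0 < 2 * cos β by positivity)]
  have h4 := abs_add_le (hs K (φ + β)) (hs K (φ - β))
  rw [div_mul_eq_mul_div, div_le_iff₀ (by positivity)]
  nlinarith

/-- far points have angle close to a right angle -/
lemma tend_beta (hK : IsCompact K) (hne : K.Nonempty) {φ : ℝ} {β : ℕ → ℝ} (h0 : ∀ n, 0 < β n)
    (h1 : ∀ n, β n < π / 2) (ht : Tendsto (fun n => ‖PT (hs K) φ (β n)‖) atTop atTop) :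
    Tendsto β atTop (𝓝 (π / 2)) := by
  obtain ⟨M, hM0, hM⟩ := exists_bound hK
  have hcos : Tendsto (fun n => cos (β n)) atTop (𝓝 0) := by
    rw [Metric.tendsto_atTop]
    intro ε hε
    obtain ⟨N, hN⟩ := (ht.eventually_gt_atTop (M * (π / 2) + M / ε)).exists_forall_of_atTop
    refine ⟨N, fun n hn => ?_⟩
    obtain ⟨s1, c1⟩ := sc_pos (h0 n) (h1 n)
    have h2 := hN n hn
    have h3 := bb_bound hK hne hM φ (h0 n) (h1 n)
    have h4 := aa_cos_bound hK hne hM φ (h0 n) (h1 n)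
    have h5 : ‖PT (hs K) φ (β n)‖ ≤ |aa (hs K) φ (β n)| + |bb (hs K) φ (β n)| := by
      have h6 := dt_sq_add (PT (hs K) φ (β n)) φ
      rw [dt_PT_self, dt_PT_perp] at h6
      apply abs_le_of_sq_le_sq' _ (by positivity) |>.2
      rw [← h6, ← sq_abs (aa _ _ _), ← sq_abs (bb _ _ _)]
      nlinarith [abs_nonneg (aa (hs K) φ (β n)), abs_nonneg (bb (hs K) φ (β n))]
    have h6 : M / ε < |aa (hs K) φ (β n)| := by linarith
    rw [dist_zero_right, Real.norm_eq_abs, abs_of_pos c1]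
    rw [div_lt_iff₀ hε] at h6
    by_contra hcon
    push Not at hcon
    have h7 : |aa (hs K) φ (β n)| * ε ≤ |aa (hs K) φ (β n)| * cos (β n) :=
      mul_le_mul_of_nonneg_left hcon (abs_nonneg _)
    linarith
  have h2 : Tendsto (fun n => arccos (cos (β n))) atTop (𝓝 (arccos 0)) :=
    (continuous_arccos.tendsto 0).comp hcos
  rw [arccos_zero] at h2
  have h3 : (fun n => arccos (cos (β n))) = β := by
    ext n
    exact arccos_cos (h0 n).le (by linarith [h1 n, pi_pos])
  rwa [h3] at h2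

lemma norm_tend (hK : IsCompact K) (hne : K.Nonempty) {P : ℕ → E2}
    (h : Tendsto (fun n => FF K (P n)) atTop atTop) : Tendsto (fun n => ‖P n‖) atTop atTop := by
  obtain ⟨M, hM0, hM⟩ := exists_bound hK
  rw [Filter.tendsto_atTop]
  intro b
  have := (Filter.tendsto_atTop.mp h) (2 * π * (M + b))
  filter_upwards [this] with n hn
  have h1 := FF_upper hK hne hM (P n)
  have h2 : 2 * π * (M + b) ≤ 2 * π * (M + ‖P n‖) := hn.trans h1
  have h3 := le_of_mul_le_mul_left h2 (by positivity)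
  linarith

/-- common points -/
lemma common (hc : Convex ℝ K) (hK : IsCompact K) (hi : (interior K).Nonempty) (hT : Tr K)
    {l1 : ℝ} (hl1 : II K < l1) (φ : ℝ) {l2 : ℝ} (hl2 : II (LL K l1) < l2) :
    ∃ β β' : ℝ, 0 < β ∧ β < π / 2 ∧ 0 < β' ∧ β' < π / 2 ∧
      PT (hs K) φ β = PT (hs (LL K l1)) φ β' ∧ FF (LL K l1) (PT (hs (LL K l1)) φ β') = l2 := by
  have hne := hi.mono interior_subset
  set L := LL K l1 with hL
  have hLc : IsCompact L := isCompact_LL hK hne l1
  have hKL : K ⊆ L := sub_LL hK hl1.le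
  have hLi : (interior L).Nonempty := interior_LL hK hi hl1.le
  have hLne := hLi.mono interior_subset
  obtain ⟨l3, hl3⟩ := hT l1 hl1 l2 hl2
  obtain ⟨β', h0', h1', hβ'⟩ := exists_beta hLc hLi φ hl2
  have hPL : FF K (PT (hs L) φ β') = l3 := by
    have : PT (hs L) φ β' ∈ {y : E2 | FF K y = l3} := by rw [← hl3]; exact hβ'
    exact this
  have hl3' : II K < l3 := by
    rw [← hPL]
    apply lt_of_le_of_ne (II_le_FF hK hne _)
    intro h
    obtain ⟨y, hy⟩ := hne
    have h1 : y ∈ {y : E2 | FF K y = l3} := by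
      change FF K y = l3
      rw [FF_of_mem hK hy, h, hPL]
    rw [← hl3] at h1
    have h2 : FF L y = l2 := h1
    rw [FF_of_mem hLc (hKL hy)] at h2
    linarith
  obtain ⟨β, h0, h1, hβ⟩ := exists_beta hK hi φ hl3'
  have hPK : FF L (PT (hs K) φ β) = l2 := by
    have : PT (hs K) φ β ∈ {y : E2 | FF L y = l2} := by rw [hl3]; exact hβ
    exact this
  refine ⟨β, β', h0, h1, h0', h1', ?_, hβ'⟩
  obtain ⟨s1, c1⟩ := sc_pos h0 h1
  obtain ⟨s2, c2⟩ := sc_pos h0' h1'
  have e1 := FF_sub (φ := φ) hK hi h0 h1 (PT (hs L) φ β')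
  rw [hβ, hPL, dt_PT_self] at e1
  have e2 := FF_sub (φ := φ) hLc hLi h0' h1' (PT (hs K) φ β)
  rw [hβ', hPK, dt_PT_self] at e2
  have e3 : aa (hs L) φ β' ≤ aa (hs K) φ β := by
    by_contra hcon
    push Not at hcon
    have : 0 < 2 * sin β * (aa (hs L) φ β' - aa (hs K) φ β) := by
      apply mul_pos (by positivity); linarith
    linarith
  have e4 : aa (hs K) φ β ≤ aa (hs L) φ β' := by
    by_contra hcon
    push Not at hcon
    have : 0 < 2 * sin β' * (aa (hs K) φ β - aa (hs L) φ β') := by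
      apply mul_pos (by positivity); linarith
    linarith
  by_contra hne'
  have e5 := FF_strict (φ := φ) hK hi h0 h1 (Q := PT (hs L) φ β')
    (by rw [dt_PT_self]; exact le_antisymm e3 e4) (Ne.symm hne')
  rw [hβ, hPL] at e5
  exact lt_irrefl _ e5

/-- sequences of common points going to infinity -/
lemma seq (hc : Convex ℝ K) (hK : IsCompact K) (hi : (interior K).Nonempty) (hT : Tr K)
    {l1 : ℝ} (hl1 : II K < l1) (φ : ℝ) :
    ∃ β β' : ℕ → ℝ, (∀ n, 0 < β n ∧ β n < π / 2 ∧ 0 < β' n ∧ β' n < π / 2 ∧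
      PT (hs K) φ (β n) = PT (hs (LL K l1)) φ (β' n)) ∧ Tendsto β atTop (𝓝 (π / 2)) ∧
      Tendsto β' atTop (𝓝 (π / 2)) := by
  have hne := hi.mono interior_subset
  set L := LL K l1 with hL
  have hLc : IsCompact L := isCompact_LL hK hne l1
  have hLi : (interior L).Nonempty := interior_LL hK hi hl1.le
  have hLne := hLi.mono interior_subset
  have hex : ∀ n : ℕ, ∃ β β' : ℝ, 0 < β ∧ β < π / 2 ∧ 0 < β' ∧ β' < π / 2 ∧
      PT (hs K) φ β = PT (hs L) φ β' ∧ FF L (PT (hs L) φ β') = II L + (n + 1) := by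
    intro n
    apply common hc hK hi hT hl1 φ
    have : (0 : ℝ) ≤ n := Nat.cast_nonneg n
    linarith
  choose β β' h0 h1 h0' h1' hP hF using hex
  have ht : Tendsto (fun n : ℕ => FF L (PT (hs L) φ (β' n))) atTop atTop := by
    simp only [hF]
    apply tendsto_atTop_add_const_left
    apply tendsto_atTop_add_const_right
    exact tendsto_natCast_atTop_atTop
  have hn := norm_tend hLc hLne ht
  refine ⟨β, β', fun n => ⟨h0 n, h1 n, h0' n, h1' n, hP n⟩, ?_, ?_⟩
  · apply tend_beta hK hne h0 h1 (φ := φ)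
    simp only [hP]
    exact hn
  · exact tend_beta hLc hLne h0' h1' hn

lemma bb_eq_of_PT {h k : ℝ → ℝ} {φ β β' : ℝ} (e : PT h φ β = PT k φ β') :
    bb h φ β = bb k φ β' := by
  rw [← dt_PT_perp h, ← dt_PT_perp k, e]

lemma aa_eq_of_PT {h k : ℝ → ℝ} {φ β β' : ℝ} (e : PT h φ β = PT k φ β') :
    aa h φ β = aa k φ β' := by
  rw [← dt_PT_self h, ← dt_PT_self k, e]

lemma bb_tend {h : ℝ → ℝ} (hh : Continuous h) (φ : ℝ) {β : ℕ → ℝ}
    (hβ : Tendsto β atTop (𝓝 (π / 2))) :
    Tendsto (fun n => bb h φ (β n)) atTop (𝓝 ((h (φ + π / 2) - h (φ - π / 2)) / 2)) := by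
  have h1 : Tendsto (fun n => bb h φ (β n)) atTop
      (𝓝 ((h (φ + π / 2) - h (φ - π / 2)) / (2 * sin (π / 2)))) := by
    unfold bb
    apply Tendsto.div
    · apply Tendsto.sub
      · exact (hh.tendsto _).comp (hβ.const_add φ)
      · exact (hh.tendsto _).comp (hβ.const_sub φ)
    · exact ((continuous_sin.tendsto _).comp hβ).const_mul 2
    · rw [sin_pi_div_two]; norm_num
  rw [sin_pi_div_two, mul_one] at h1
  exact h1

/-- Step 1 -/
lemma odd_part (hc : Convex ℝ K) (hK : IsCompact K) (hi : (interior K).Nonempty) (hT : Tr K)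
    {l1 : ℝ} (hl1 : II K < l1) (ψ : ℝ) :
    hs (LL K l1) ψ - hs (LL K l1) (ψ + π) = hs K ψ - hs K (ψ + π) := by
  have hne := hi.mono interior_subset
  have hLc : IsCompact (LL K l1) := isCompact_LL hK hne l1
  have hLne := (interior_LL hK hi hl1.le).mono interior_subset
  obtain ⟨β, β', hβ, t1, t2⟩ := seq hc hK hi hT hl1 (ψ + π / 2)
  have e1 := bb_tend (continuous_hs hK hne) (ψ + π / 2) t1
  have e2 := bb_tend (continuous_hs hLc hLne) (ψ + π / 2) t2
  have e3 : (fun n => bb (hs K) (ψ + π / 2) (β n)) =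
      fun n => bb (hs (LL K l1)) (ψ + π / 2) (β' n) := by
    ext n; exact bb_eq_of_PT (hβ n).2.2.2.2
  rw [e3] at e1
  have e4 := tendsto_nhds_unique e1 e2
  rw [show ψ + π / 2 + π / 2 = ψ + π by ring, show ψ + π / 2 - π / 2 = ψ by ring] at e4
  linarith

/-- Step 2: integral equation for the odd part -/
lemma odd_integral (hc : Convex ℝ K) (hK : IsCompact K) (hi : (interior K).Nonempty) (hT : Tr K)
    (φ : ℝ) : 2 * (hs K φ - hs K (φ + π)) =
      (∫ θ in (φ + π + π / 2)..(φ + π - π / 2 + 2 * π), hs K θ) -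
        ∫ θ in (φ + π / 2)..(φ - π / 2 + 2 * π), hs K θ := by
  have hne := hi.mono interior_subset
  have hch := continuous_hs hK hne
  obtain ⟨M, hM0, hM⟩ := exists_bound hK
  set l : ℕ → ℝ := fun n => II K + (n + 1) with hl
  have hlII : ∀ n, II K < l n := by
    intro n
    have : (0 : ℝ) ≤ n := Nat.cast_nonneg n
    simp only [hl]; linarith
  have hltop : Tendsto l atTop atTop := by
    apply tendsto_atTop_add_const_left
    apply tendsto_atTop_add_const_right
    exact tendsto_natCast_atTop_atTop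
  -- data at a direction
  have hdata : ∀ ψ : ℝ, ∃ β : ℕ → ℝ, (∀ n, 0 < β n) ∧ (∀ n, β n < π / 2) ∧
      (∀ n, FF K (PT (hs K) ψ (β n)) = l n) ∧ Tendsto β atTop (𝓝 (π / 2)) := by
    intro ψ
    have hex : ∀ n, ∃ β : ℝ, 0 < β ∧ β < π / 2 ∧ FF K (PT (hs K) ψ β) = l n := fun n =>
      exists_beta hK hi ψ (hlII n)
    choose β h0 h1 h2 using hex
    refine ⟨β, h0, h1, h2, tend_beta hK hne h0 h1 (φ := ψ) (norm_tend hK hne ?_)⟩
    simp only [h2]
    exact hltop
  have hone : ∀ ψ : ℝ, ∀ β : ℕ → ℝ, (∀ n, 0 < β n) → (∀ n, β n < π / 2) →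
      Tendsto β atTop (𝓝 (π / 2)) →
      Tendsto (fun n => (1 - sin (β n)) * aa (hs K) ψ (β n)) atTop (𝓝 0) := by
    intro ψ β h0 h1 ht
    have hcos : Tendsto (fun n => M * cos (β n)) atTop (𝓝 0) := by
      have := ((continuous_cos.tendsto _).comp ht).const_mul M
      rw [cos_pi_div_two, mul_zero] at this
      exact this
    apply squeeze_zero_norm _ hcos
    intro n
    obtain ⟨s1, c1⟩ := sc_pos (h0 n) (h1 n)
    have h4 := aa_cos_bound hK hne hM ψ (h0 n) (h1 n)
    have h5 : 1 - sin (β n) ≤ cos (β n) ^ 2 := by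
      have := sin_sq_add_cos_sq (β n)
      have := sin_le_one (β n)
      nlinarith
    rw [norm_mul, Real.norm_eq_abs, Real.norm_eq_abs,
      abs_of_nonneg (by linarith [sin_le_one (β n)])]
    calc (1 - sin (β n)) * |aa (hs K) ψ (β n)| ≤ cos (β n) ^ 2 * |aa (hs K) ψ (β n)| :=
          mul_le_mul_of_nonneg_right h5 (abs_nonneg _)
      _ = (|aa (hs K) ψ (β n)| * cos (β n)) * cos (β n) := by ring
      _ ≤ M * cos (β n) := mul_le_mul_of_nonneg_right h4 c1.le
  have hintg : ∀ ψ : ℝ, ∀ β : ℕ → ℝ, Tendsto β atTop (𝓝 (π / 2)) →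
      Tendsto (fun n => ∫ θ in (ψ + β n)..(ψ - β n + 2 * π), hs K θ) atTop
        (𝓝 (∫ θ in (ψ + π / 2)..(ψ - π / 2 + 2 * π), hs K θ)) := by
    intro ψ β ht
    have h1 : ∀ b : ℝ, ∫ θ in (ψ + b)..(ψ - b + 2 * π), hs K θ =
        (∫ θ in (0 : ℝ)..(ψ - b + 2 * π), hs K θ) - ∫ θ in (0 : ℝ)..(ψ + b), hs K θ := by
      intro b
      rw [intervalIntegral.integral_interval_sub_left (hch.intervalIntegrable _ _)
        (hch.intervalIntegrable _ _)]
    have h2 : Continuous (fun x : ℝ => ∫ θ in (0 : ℝ)..x, hs K θ) :=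
      intervalIntegral.continuous_primitive (fun a b => hch.intervalIntegrable a b) 0
    have h3 : Continuous (fun b : ℝ => ∫ θ in (ψ + b)..(ψ - b + 2 * π), hs K θ) := by
      simp only [h1]
      exact (h2.comp (by fun_prop)).sub (h2.comp (by fun_prop))
    exact (h3.tendsto _).comp ht
  obtain ⟨β, h0, h1, h2, h3⟩ := hdata φ
  obtain ⟨γ, g0, g1, g2, g3⟩ := hdata (φ + π)
  have key : ∀ n, 2 * (hs K φ - hs K (φ + π)) =
      (∫ θ in (φ + π + γ n)..(φ + π - γ n + 2 * π), hs K θ) -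
        (∫ θ in (φ + β n)..(φ - β n + 2 * π), hs K θ) +
      2 * ((1 - sin (β n)) * aa (hs K) φ (β n)) -
      2 * ((1 - sin (γ n)) * aa (hs K) (φ + π) (γ n)) := by
    intro n
    have e1 := odd_part hc hK hi hT (hlII n) φ
    rw [hs_LL hK hi (h0 n) (h1 n) (h2 n), hs_LL hK hi (g0 n) (g1 n) (g2 n)] at e1
    have e2 := h2 n
    have e3 := g2 n
    rw [FF_PT hK hi (h0 n) (h1 n)] at e2
    rw [FF_PT hK hi (g0 n) (g1 n)] at e3
    linarith
  have hlim : Tendsto (fun n => (∫ θ in (φ + π + γ n)..(φ + π - γ n + 2 * π), hs K θ) -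
        (∫ θ in (φ + β n)..(φ - β n + 2 * π), hs K θ) +
      2 * ((1 - sin (β n)) * aa (hs K) φ (β n)) -
      2 * ((1 - sin (γ n)) * aa (hs K) (φ + π) (γ n))) atTop
      (𝓝 ((∫ θ in (φ + π + π / 2)..(φ + π - π / 2 + 2 * π), hs K θ) -
        (∫ θ in (φ + π / 2)..(φ - π / 2 + 2 * π), hs K θ) + 2 * 0 - 2 * 0)) :=
    (((hintg (φ + π) γ g3).sub (hintg φ β h3)).add ((hone φ β h0 h1 h3).const_mul 2)).sub
      ((hone (φ + π) γ g0 g1 g3).const_mul 2)
  have hconst : Tendsto (fun n : ℕ => (∫ θ in (φ + π + γ n)..(φ + π - γ n + 2 * π), hs K θ) -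
        (∫ θ in (φ + β n)..(φ - β n + 2 * π), hs K θ) +
      2 * ((1 - sin (β n)) * aa (hs K) φ (β n)) -
      2 * ((1 - sin (γ n)) * aa (hs K) (φ + π) (γ n))) atTop
      (𝓝 (2 * (hs K φ - hs K (φ + π)))) := by
    have : (fun n : ℕ => (∫ θ in (φ + π + γ n)..(φ + π - γ n + 2 * π), hs K θ) -
        (∫ θ in (φ + β n)..(φ - β n + 2 * π), hs K θ) +
      2 * ((1 - sin (β n)) * aa (hs K) φ (β n)) -
      2 * ((1 - sin (γ n)) * aa (hs K) (φ + π) (γ n))) =
        fun _ => 2 * (hs K φ - hs K (φ + π)) := by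
      ext n; exact (key n).symm
    rw [this]
    exact tendsto_const_nhds
  have := tendsto_nhds_unique hconst hlim
  linarith

/-- the odd part satisfies a differential equation -/
lemma odd_deriv (hc : Convex ℝ K) (hK : IsCompact K) (hi : (interior K).Nonempty) (hT : Tr K)
    (φ : ℝ) : HasDerivAt (fun φ => hs K φ - hs K (φ + π))
      (hs K (φ + π / 2) - hs K (φ + π / 2 + π)) φ := by
  have hne := hi.mono interior_subset
  have hch := continuous_hs hK hne
  set F : ℝ → ℝ := fun x => ∫ θ in (0 : ℝ)..x, hs K θ with hF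
  have hFd : ∀ x, HasDerivAt F (hs K x) x := fun x =>
    intervalIntegral.integral_hasDerivAt_right (hch.intervalIntegrable _ _)
      (hch.stronglyMeasurableAtFilter _ _) hch.continuousAt
  have hsplit : ∀ a b : ℝ, ∫ θ in a..b, hs K θ = F b - F a := by
    intro a b
    simp only [hF]
    rw [intervalIntegral.integral_interval_sub_left (hch.intervalIntegrable _ _)
      (hch.intervalIntegrable _ _)]
  have e : (fun φ => hs K φ - hs K (φ + π)) = fun φ =>
      (1 / 2) * ((F (φ + π - π / 2 + 2 * π) - F (φ + π + π / 2)) -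
        (F (φ - π / 2 + 2 * π) - F (φ + π / 2))) := by
    ext φ
    have := odd_integral hc hK hi hT φ
    rw [hsplit, hsplit] at this
    linarith
  rw [e]
  have d : ∀ c : ℝ, HasDerivAt (fun φ => F (φ + c)) (hs K (φ + c)) φ := fun c =>
    (hFd (φ + c)).comp_add_const φ c
  have d1 := d (5 * π / 2)
  have d2 := d (3 * π / 2)
  have d4 := d (π / 2)
  have d5 := ((d1.sub d2).sub (d2.sub d4)).const_mul (1 / 2)
  have e1 : (fun φ => (1 / 2) * ((F (φ + π - π / 2 + 2 * π) - F (φ + π + π / 2)) -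
        (F (φ - π / 2 + 2 * π) - F (φ + π / 2)))) =
      fun φ => (1 / 2) * ((F (φ + 5 * π / 2) - F (φ + 3 * π / 2)) -
        (F (φ + 3 * π / 2) - F (φ + π / 2))) := by
    ext φ
    rw [show φ + π - π / 2 + 2 * π = φ + 5 * π / 2 by ring,
      show φ + π + π / 2 = φ + 3 * π / 2 by ring,
      show φ - π / 2 + 2 * π = φ + 3 * π / 2 by ring]
  rw [e1]
  convert! d5 using 1
  have p1 : hs K (φ + 5 * π / 2) = hs K (φ + π / 2) := by
    rw [show φ + 5 * π / 2 = φ + π / 2 + 2 * π by ring, hs_add_two_pi]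
  rw [p1, show φ + π / 2 + π = φ + 3 * π / 2 by ring]
  ring

/-- the centre -/
noncomputable def cen (K : Set E2) : E2 :=
  !₂[(hs K 0 - hs K π) / 2, (hs K (π / 2) - hs K (π / 2 + π)) / 2]

lemma odd_eq (hc : Convex ℝ K) (hK : IsCompact K) (hi : (interior K).Nonempty) (hT : Tr K)
    (φ : ℝ) : hs K φ - hs K (φ + π) = 2 * dt (cen K) φ := by
  set o : ℝ → ℝ := fun φ => hs K φ - hs K (φ + π) with ho
  have hod : ∀ φ, HasDerivAt o (o (φ + π / 2)) φ := fun φ => odd_deriv hc hK hi hT φ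
  have hopi : ∀ φ, o (φ + π / 2 + π / 2) = - o φ := by
    intro φ
    simp only [ho]
    rw [show φ + π / 2 + π / 2 = φ + π by ring, show φ + π + π = φ + 2 * π by ring,
      hs_add_two_pi]
    ring
  set a := o 0 with ha
  set b := o (π / 2) with hb
  set e : ℝ → ℝ := fun φ => o φ - a * cos φ - b * sin φ with he
  set e1 : ℝ → ℝ := fun φ => o (φ + π / 2) + a * sin φ - b * cos φ with he1
  have hed : ∀ φ, HasDerivAt e (e1 φ) φ := by
    intro φ
    have h1 := ((hod φ).sub ((hasDerivAt_cos φ).const_mul a)).sub ((hasDerivAt_sin φ).const_mul b)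
    convert! h1 using 1
    simp only [he1]; ring
  have he1d : ∀ φ, HasDerivAt e1 (- e φ) φ := by
    intro φ
    have h0 : HasDerivAt (fun φ => o (φ + π / 2)) (- o φ) φ := by
      have := (hod (φ + π / 2)).comp_add_const φ (π / 2)
      rwa [hopi] at this
    have h1 := (h0.add ((hasDerivAt_sin φ).const_mul a)).sub ((hasDerivAt_cos φ).const_mul b)
    convert! h1 using 1
    simp only [he]; ring
  set G : ℝ → ℝ := fun φ => e φ ^ 2 + e1 φ ^ 2 with hG
  have hGd : ∀ φ, HasDerivAt G 0 φ := by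
    intro φ
    have h1 := ((hed φ).pow 2).add ((he1d φ).pow 2)
    convert! h1 using 1
    simp; ring
  have hG0 : G 0 = 0 := by
    simp only [hG, he, he1, sin_zero, cos_zero, zero_add]
    rw [← ha, ← hb]
    ring
  have hGc : ∀ φ, G φ = 0 := by
    intro φ
    rw [← hG0]
    exact is_const_of_deriv_eq_zero (fun x => (hGd x).differentiableAt)
      (fun x => (hGd x).deriv) φ 0
  have h1 : e φ = 0 := by
    have := hGc φ
    simp only [hG] at this
    nlinarith [sq_nonneg (e φ), sq_nonneg (e1 φ)]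
  have h2 : o φ = a * cos φ + b * sin φ := by
    simp only [he] at h1; linarith
  change o φ = _
  rw [h2]
  simp only [dt, cen, PiLp.toLp_apply, Matrix.cons_val_zero, Matrix.cons_val_one]
  simp only [ha, hb, ho, zero_add]
  ring

end Pool.Agent.TH589.SC
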