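import Mathlib
import Pool.Agent.TH589.SC.Trans

set_option autoImplicit false

namespace Pool.Agent.TH589.SC

open MeasureTheory Metric Set Real Filter Topology

variable {K : Set E2}

/-- centred support function -/
noncomputable def kk (L : Set E2) (c : E2) (φ : ℝ) : ℝ := hs L φ - dt c φ

lemma aa_shift (L : Set E2) (c : E2) (φ : ℝ) {β : ℝ} (hβ : 0 < cos β) :
    aa (kk L c) φ β = aa (hs L) φ β - dt c φ := by
  have h1 : dt c (φ + β) + dt c (φ - β) = 2 * cos β * dt c φ := by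
    simp only [dt, cos_add, sin_add, cos_sub, sin_sub]; ring
  unfold aa kk
  rw [div_sub' (by positivity)]
  congr 1
  linarith

lemma bb_shift (L : Set E2) (c : E2) (φ : ℝ) {β : ℝ} (hβ : 0 < sin β) :
    bb (kk L c) φ β = bb (hs L) φ β - dt c (φ + π / 2) := by
  have h1 : dt c (φ + β) - dt c (φ - β) = 2 * sin β * dt c (φ + π / 2) := by
    simp only [dt, cos_add, sin_add, cos_sub, sin_sub, cos_pi_div_two, sin_pi_div_two]; ring
  unfold bb kk
  rw [div_sub' (by positivity)]
  congr 1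
  linarith

lemma aabb (k : ℝ → ℝ) (φ : ℝ) {β : ℝ} (h1 : 0 < sin β) (h2 : 0 < cos β) :
    aa k φ β * bb k φ β = (k (φ + β) ^ 2 - k (φ - β) ^ 2) / (4 * (sin β * cos β)) := by
  unfold aa bb
  field_simp
  ring

/-- limit of the product of the coordinates of the common points -/
lemma lim_prod {k : ℝ → ℝ} (hper : ∀ x, k (x + π) = k x) {φ A' : ℝ}
    (hA : HasDerivAt (fun x => k x ^ 2) A' (φ + π / 2)) {β : ℕ → ℝ} (h0 : ∀ n, 0 < β n)
    (h1 : ∀ n, β n < π / 2) (ht : Tendsto β atTop (𝓝 (π / 2))) :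
    Tendsto (fun n => aa k φ (β n) * bb k φ (β n)) atTop (𝓝 (-A' / 2)) := by
  set f : ℝ → ℝ := fun ε => k (φ + π / 2 - ε) ^ 2 - k (φ + π / 2 + ε) ^ 2 with hf
  have hfd : HasDerivAt f (-A' - A') 0 := by
    have e1 : HasDerivAt (fun ε : ℝ => k (φ + π / 2 - ε) ^ 2) (-A') 0 := by
      have h2 : HasDerivAt (fun ε : ℝ => φ + π / 2 - ε) (-1) 0 := by
        simpa using (hasDerivAt_id (0 : ℝ)).const_sub (φ + π / 2)
      have h3 : HasDerivAt (fun x => k x ^ 2) A' (φ + π / 2 - 0) := by simpa using hA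
      have := HasDerivAt.comp (0 : ℝ) h3 h2
      rw [mul_neg_one] at this
      exact this
    have e2 : HasDerivAt (fun ε : ℝ => k (φ + π / 2 + ε) ^ 2) A' 0 := by
      have h2 : HasDerivAt (fun ε : ℝ => φ + π / 2 + ε) 1 0 := by
        simpa using (hasDerivAt_id (0 : ℝ)).const_add (φ + π / 2)
      have h3 : HasDerivAt (fun x => k x ^ 2) A' (φ + π / 2 + 0) := by simpa using hA
      have := HasDerivAt.comp (0 : ℝ) h3 h2
      rw [mul_one] at this
      exact this
    exact e1.sub e2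
  have hf0 : f 0 = 0 := by simp [hf]
  have hsl := hfd.tendsto_slope_zero
  have hsin := (hasDerivAt_sin 0).tendsto_slope_zero
  set e : ℕ → ℝ := fun n => π / 2 - β n with he
  have het : Tendsto e atTop (𝓝[≠] 0) := by
    rw [tendsto_nhdsWithin_iff]
    constructor
    · have := ht.const_sub (π / 2)
      rwa [sub_self] at this
    · filter_upwards with n
      have : 0 < e n := by simp only [he]; linarith [h1 n]
      exact this.ne'
  have t1 := hsl.comp het
  have t2 := hsin.comp het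
  have t3 : Tendsto (fun n => cos (e n)) atTop (𝓝 1) := by
    have := (continuous_cos.tendsto 0).comp (tendsto_nhds_of_tendsto_nhdsWithin het)
    rwa [cos_zero] at this
  have t4 := t1.div (((t2.mul t3).const_mul 4)) (by simp)
  have e1 : (fun n => aa k φ (β n) * bb k φ (β n)) =
      fun n => ((e n)⁻¹ • (f (0 + e n) - f 0)) / (4 * (((e n)⁻¹ • (sin (0 + e n) - sin 0)) * cos (e n))) := by
    ext n
    obtain ⟨s1, c1⟩ := sc_pos (h0 n) (h1 n)
    have hen : 0 < e n := by simp only [he]; linarith [h1 n]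
    have hs1 : sin (e n) = cos (β n) := by simp only [he]; rw [sin_pi_div_two_sub]
    have hc1 : cos (e n) = sin (β n) := by simp only [he]; rw [cos_pi_div_two_sub]
    rw [aabb k φ s1 c1, zero_add, hf0, sub_zero, sin_zero, sub_zero, hs1, hc1]
    have hfe : f (e n) = k (φ + β n) ^ 2 - k (φ - β n) ^ 2 := by
      simp only [hf, he]
      rw [show φ + π / 2 - (π / 2 - β n) = φ + β n by ring,
        show φ + π / 2 + (π / 2 - β n) = φ - β n + π by ring, hper]
    rw [hfe]
    simp only [smul_eq_mul]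
    field_simp
  rw [e1]
  convert! t4 using 2
  simp
  ring

lemma kk_lip {L : Set E2} (hL : IsCompact L) (hne : L.Nonempty) (c : E2) :
    ∃ C : NNReal, LipschitzWith C (fun φ => kk L c φ ^ 2) := by
  obtain ⟨M, hM0, hM⟩ := exists_bound hL
  set N := M + ‖c‖ with hN
  have hN0 : 0 ≤ N := by positivity
  have h1 : ∀ φ, |kk L c φ| ≤ N := by
    intro φ
    have h2 := abs_hs_le hL hne hM φ
    have h3 := abs_dt_le c φ
    have h4 := abs_sub (hs L φ) (dt c φ)
    unfold kk
    linarith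
  have h2 : ∀ φ ψ, |kk L c φ - kk L c ψ| ≤ N * |φ - ψ| := by
    intro φ ψ
    have h3 := hs_lip hL hne hM φ ψ
    have h4 := dt_lip c φ ψ
    have h5 : kk L c φ - kk L c ψ = (hs L φ - hs L ψ) - (dt c φ - dt c ψ) := by
      unfold kk; ring
    rw [h5]
    have h6 := abs_sub (hs L φ - hs L ψ) (dt c φ - dt c ψ)
    calc _ ≤ _ := h6
      _ ≤ M * |φ - ψ| + ‖c‖ * |φ - ψ| := add_le_add h3 h4
      _ = _ := by rw [hN]; ring
  refine ⟨Real.toNNReal (2 * N * N), ?_⟩
  apply LipschitzWith.of_dist_le_mul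
  intro x y
  rw [Real.dist_eq, Real.dist_eq, Real.coe_toNNReal _ (by positivity)]
  have h3 : kk L c x ^ 2 - kk L c y ^ 2 = (kk L c x + kk L c y) * (kk L c x - kk L c y) := by ring
  rw [h3, abs_mul]
  have h4 : |kk L c x + kk L c y| ≤ 2 * N := by
    have := abs_add_le (kk L c x) (kk L c y)
    linarith [h1 x, h1 y]
  calc |kk L c x + kk L c y| * |kk L c x - kk L c y| ≤ 2 * N * (N * |x - y|) :=
        mul_le_mul h4 (h2 x y) (abs_nonneg _) (by positivity)
    _ = _ := by ring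

/-- fundamental theorem of calculus for Lipschitz functions -/
lemma lip_ftc {G g : ℝ → ℝ} {C : NNReal} (hG : LipschitzWith C G)
    (h : ∀ᵐ x : ℝ, deriv G x = g x) (a b : ℝ) : G b - G a = ∫ x in a..b, g x := by
  have h1 : AbsolutelyContinuousOnInterval G a b :=
    (hG.lipschitzOnWith (s := uIcc a b)).absolutelyContinuousOnInterval
  rw [← h1.integral_deriv_eq_sub]
  apply intervalIntegral.integral_congr_ae
  filter_upwards [h] with x hx _
  exact hx

variable (hc : Convex ℝ K) (hK : IsCompact K) (hi : (interior K).Nonempty) (hT : Tr K)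
include hc hK hi hT

lemma kk_even (φ : ℝ) : kk K (cen K) (φ + π) = kk K (cen K) φ := by
  have := odd_eq hc hK hi hT φ
  unfold kk
  rw [dt_add_pi]; linarith

lemma kk_even_LL {l1 : ℝ} (hl1 : II K < l1) (φ : ℝ) :
    kk (LL K l1) (cen K) (φ + π) = kk (LL K l1) (cen K) φ := by
  have h1 := odd_eq hc hK hi hT φ
  have h2 := odd_part hc hK hi hT hl1 φ
  unfold kk
  rw [dt_add_pi]; linarith

lemma kk_pos (φ : ℝ) : 0 < kk K (cen K) φ := by
  have h1 := kk_even hc hK hi hT φ
  have h2 := hs_pos_width hK hi φ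
  have h3 : kk K (cen K) φ + kk K (cen K) (φ + π) = hs K φ + hs K (φ + π) := by
    unfold kk; rw [dt_add_pi]; ring
  linarith

lemma kk_pos_LL {l1 : ℝ} (hl1 : II K < l1) (φ : ℝ) : 0 < kk (LL K l1) (cen K) φ := by
  have h1 := kk_pos hc hK hi hT φ
  have hne := hi.mono interior_subset
  have h2 := hs_mono hne (isCompact_LL hK hne l1) (sub_LL hK hl1.le) φ
  unfold kk at h1 ⊢
  linarith

/-- Step 3 -/
lemma sq_const {l1 : ℝ} (hl1 : II K < l1) :
    ∃ κ : ℝ, ∀ φ, kk (LL K l1) (cen K) φ ^ 2 = kk K (cen K) φ ^ 2 + κ := by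
  have hne := hi.mono interior_subset
  set L := LL K l1 with hL
  have hLc : IsCompact L := isCompact_LL hK hne l1
  have hLne : L.Nonempty := (interior_LL hK hi hl1.le).mono interior_subset
  obtain ⟨C1, hC1⟩ := kk_lip hK hne (cen K)
  obtain ⟨C2, hC2⟩ := kk_lip hLc hLne (cen K)
  have hG : LipschitzWith (C2 + C1) (fun φ => kk L (cen K) φ ^ 2 - kk K (cen K) φ ^ 2) :=
    hC2.sub hC1
  have hae : ∀ᵐ v : ℝ, deriv (fun φ => kk L (cen K) φ ^ 2 - kk K (cen K) φ ^ 2) v = 0 := by
    filter_upwards [hC1.ae_differentiableAt_real, hC2.ae_differentiableAt_real] with v d1 d2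
    set φ := v - π / 2 with hφ
    have hv : v = φ + π / 2 := by rw [hφ]; ring
    obtain ⟨β, β', hβ, t1, t2⟩ := seq hc hK hi hT hl1 φ
    have e1 := lim_prod (k := kk K (cen K)) (φ := φ) (kk_even hc hK hi hT)
      (by rw [← hv]; exact d1.hasDerivAt) (fun n => (hβ n).1) (fun n => (hβ n).2.1) t1
    have e2 := lim_prod (k := kk L (cen K)) (φ := φ) (kk_even_LL hc hK hi hT hl1)
      (by rw [← hv]; exact d2.hasDerivAt) (fun n => (hβ n).2.2.1) (fun n => (hβ n).2.2.2.1) t2
    have e3 : (fun n => aa (kk K (cen K)) φ (β n) * bb (kk K (cen K)) φ (β n)) =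
        fun n => aa (kk L (cen K)) φ (β' n) * bb (kk L (cen K)) φ (β' n) := by
      ext n
      obtain ⟨b1, b2, b3, b4, b5⟩ := hβ n
      obtain ⟨s1, c1⟩ := sc_pos b1 b2
      obtain ⟨s2, c2⟩ := sc_pos b3 b4
      rw [aa_shift _ _ _ c1, aa_shift _ _ _ c2, bb_shift _ _ _ s1, bb_shift _ _ _ s2,
        aa_eq_of_PT b5, bb_eq_of_PT b5]
    rw [e3] at e1
    have e4 := tendsto_nhds_unique e1 e2
    have e5 : deriv (fun φ => kk L (cen K) φ ^ 2 - kk K (cen K) φ ^ 2) v =
        deriv (fun φ => kk L (cen K) φ ^ 2) v - deriv (fun φ => kk K (cen K) φ ^ 2) v :=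
      (d2.hasDerivAt.sub d1.hasDerivAt).deriv
    rw [e5]
    linarith
  refine ⟨kk L (cen K) 0 ^ 2 - kk K (cen K) 0 ^ 2, fun φ => ?_⟩
  have := lip_ftc (g := fun _ => 0) hG hae 0 φ
  simp only [intervalIntegral.integral_zero] at this
  linarith

omit hc hK hi hT in
/-- local identity -/
lemma local_id {L : Set E2} (hLc : IsCompact L) {φ β κ A' : ℝ} (h0 : 0 < β) (h1 : β < π / 2)
    {c : E2} (hP : PT (hs K) φ β ∈ L) (hL : hs L φ = aa (hs K) φ β)
    (hl : ∀ ψ, kk L c ψ ^ 2 = kk K c ψ ^ 2 + κ) (hpos : ∀ ψ, 0 < kk L c ψ)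
    (hA : HasDerivAt (fun ψ => kk K c ψ ^ 2) A' φ) :
    kk K c (φ + β) ^ 2 - kk K c (φ - β) ^ 2 = sin (2 * β) * A' := by
  obtain ⟨s1, c1⟩ := sc_pos h0 h1
  have hA2 : HasDerivAt (fun ψ => kk L c ψ ^ 2) A' φ := by
    have : (fun ψ => kk L c ψ ^ 2) = fun ψ => kk K c ψ ^ 2 + κ := by ext ψ; exact hl ψ
    rw [this]
    exact hA.add_const κ
  have hl' : HasDerivAt (kk L c) (A' / (2 * kk L c φ)) φ := by
    have h2 := hA2.sqrt (by have := hpos φ; positivity)
    have h3 : (fun ψ => √(kk L c ψ ^ 2)) = kk L c := by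
      ext ψ; exact Real.sqrt_sq (hpos ψ).le
    rw [h3, Real.sqrt_sq (hpos φ).le] at h2
    exact h2
  have hdt : ∀ x : E2, HasDerivAt (dt x) (dt x (φ + π / 2)) φ := by
    intro x
    have h2 := ((hasDerivAt_cos φ).const_mul (x 0)).add ((hasDerivAt_sin φ).const_mul (x 1))
    convert! h2 using 1
    simp only [dt, cos_add_pi_div_two, sin_add_pi_div_two]
  set P := PT (hs K) φ β with hPdef
  have hq : HasDerivAt (fun ψ => kk L c ψ + dt c ψ - dt P ψ)
      (A' / (2 * kk L c φ) + dt c (φ + π / 2) - dt P (φ + π / 2)) φ :=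
    (hl'.add (hdt c)).sub (hdt P)
  have hmin : IsLocalMin (fun ψ => kk L c ψ + dt c ψ - dt P ψ) φ := by
    apply Filter.Eventually.of_forall
    intro ψ
    have h2 := le_hs hLc hP ψ
    have h3 : kk L c φ + dt c φ - dt P φ = 0 := by
      unfold kk
      rw [hL, hPdef, dt_PT_self]; ring
    change kk L c φ + dt c φ - dt P φ ≤ kk L c ψ + dt c ψ - dt P ψ
    rw [h3]
    unfold kk
    linarith
  have h4 := hmin.hasDerivAt_eq_zero hq
  rw [hPdef, dt_PT_perp] at h4
  have h5 : A' / (2 * kk L c φ) = bb (kk K c) φ β := by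
    rw [bb_shift _ _ _ s1]; linarith
  have h6 : kk L c φ = aa (kk K c) φ β := by
    rw [aa_shift _ _ _ c1, ← hL]; rfl
  have h7 := aabb (kk K c) φ s1 c1
  rw [← h5, ← h6] at h7
  have h8 := hpos φ
  rw [sin_two_mul]
  field_simp at h7
  linarith

lemma fe_of_deriv {φ A' : ℝ} (hA : HasDerivAt (fun ψ => kk K (cen K) ψ ^ 2) A' φ) {β : ℝ}
    (h0 : 0 < β) (h1 : β < π / 2) :
    kk K (cen K) (φ + β) ^ 2 - kk K (cen K) (φ - β) ^ 2 = sin (2 * β) * A' := by
  have hne := hi.mono interior_subset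
  rcases (II_le_FF hK hne (PT (hs K) φ β)).eq_or_lt with h | h
  · -- the point lies in `K`
    set P := PT (hs K) φ β with hP
    have hle : ∀ θ, dt P θ ≤ hs K θ := by
      by_contra hcon
      push Not at hcon
      obtain ⟨θ, hθ⟩ := hcon
      have h2 : II K < FF K P := by
        rw [II_shift θ, FF_shift P θ]
        apply integral_lt_of_point (x := θ) (by linarith [pi_pos]) (continuous_hs hK hne)
          (cont_max hK hne P) (fun y => le_max_left _ _) ⟨le_rfl, by linarith [pi_pos]⟩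
        exact lt_max_of_lt_right hθ
      linarith
    have hPK : P ∈ K := mem_of_le_hs hK hc hle hne
    have hL : hs K φ = aa (hs K) φ β := by
      apply le_antisymm
      · have := below (φ := φ) (ψ := φ) hK hne h0 h1 (by linarith) (by linarith)
        rwa [dt_PT_self] at this
      · have := hle φ
        rwa [hP, dt_PT_self] at this
    exact local_id hK h0 h1 hPK hL (κ := 0) (fun ψ => by ring) (kk_pos hc hK hi hT) hA
  · set l1 := FF K (PT (hs K) φ β) with hl1
    obtain ⟨κ, hκ⟩ := sq_const hc hK hi hT h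
    exact local_id (isCompact_LL hK hne l1) h0 h1 (show FF K _ ≤ l1 from le_rfl)
      (hs_LL hK hi h0 h1 rfl) hκ (kk_pos_LL hc hK hi hT h) hA

end Pool.Agent.TH589.SC
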