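import Mathlib
import Pool.Agent.TH589.SC.Step

set_option autoImplicit false

namespace Pool.Agent.TH589.SC

open MeasureTheory Metric Set Real Filter Topology

/-- A Lipschitz function satisfying the functional equation is a trigonometric polynomial. -/
lemma solve {A : ℝ → ℝ} {C : NNReal} (hA : LipschitzWith C A)
    (hfe : ∀ φ A' : ℝ, HasDerivAt A A' φ → ∀ β : ℝ, 0 < β → β < π / 2 →
      A (φ + β) - A (φ - β) = sin (2 * β) * A') :
    ∃ α p q : ℝ, ∀ φ, A φ = α + p * cos (2 * φ) + q * sin (2 * φ) := by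
  have hAc := hA.continuous
  set D : (ℝ → ℝ) → ℝ → ℝ := fun f φ => f (φ + π / 4) - f (φ - π / 4) with hD
  have hDd : ∀ f f' : ℝ → ℝ, (∀ φ, HasDerivAt f (f' φ) φ) → ∀ φ, HasDerivAt (D f) (D f' φ) φ := by
    intro f f' hf φ
    exact ((hf (φ + π / 4)).comp_add_const φ (π / 4)).sub
      ((hf (φ - π / 4)).comp_sub_const φ (π / 4))
  have hAd : ∀ φ, HasDerivAt A (D A φ) φ := by
    have hae : ∀ᵐ x : ℝ, deriv A x = D A x := by
      filter_upwards [hA.ae_differentiableAt_real] with x hx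
      have := hfe x _ hx.hasDerivAt (π / 4) (by positivity) (by linarith [pi_pos])
      rw [show 2 * (π / 4) = π / 2 by ring, sin_pi_div_two, one_mul] at this
      exact this.symm
    have hcD : Continuous (D A) := by
      simp only [hD]; fun_prop
    have h1 : ∀ b, A b = A 0 + ∫ x in (0 : ℝ)..b, D A x := by
      intro b
      have := lip_ftc hA hae 0 b
      linarith
    intro φ
    have h2 : HasDerivAt (fun b => A 0 + ∫ x in (0 : ℝ)..b, D A x) (D A φ) φ :=
      (intervalIntegral.integral_hasDerivAt_right (hcD.intervalIntegrable _ _)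
        (hcD.stronglyMeasurableAtFilter _ _) hcD.continuousAt).const_add (A 0)
    exact h2.congr_of_eventuallyEq (Filter.Eventually.of_forall h1)
  set B := D A with hB
  have hBd : ∀ φ, HasDerivAt B (D B φ) φ := hDd A B hAd
  set E := D B with hE
  have hEd : ∀ φ, HasDerivAt E (D E φ) φ := hDd B E hBd
  have f0 : ∀ φ β : ℝ, 0 < β → β < π / 2 → A (φ + β) - A (φ - β) = sin (2 * β) * B φ :=
    fun φ β h0 h1 => hfe φ _ (hAd φ) β h0 h1
  -- derivative in `φ`
  have f1 : ∀ φ β : ℝ, 0 < β → β < π / 2 → B (φ + β) - B (φ - β) = sin (2 * β) * E φ := by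
    intro φ β h0 h1
    have e1 : HasDerivAt (fun φ => A (φ + β) - A (φ - β)) (B (φ + β) - B (φ - β)) φ :=
      ((hAd (φ + β)).comp_add_const φ β).sub ((hAd (φ - β)).comp_sub_const φ β)
    have e2 : HasDerivAt (fun φ => sin (2 * β) * B φ) (sin (2 * β) * E φ) φ :=
      (hBd φ).const_mul _
    have e3 : (fun φ => A (φ + β) - A (φ - β)) = fun φ => sin (2 * β) * B φ :=
      funext fun φ => f0 φ β h0 h1
    rw [e3] at e1
    exact e1.unique e2
  have f2 : ∀ φ β : ℝ, 0 < β → β < π / 2 → E (φ + β) - E (φ - β) = sin (2 * β) * D E φ := by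
    intro φ β h0 h1
    have e1 : HasDerivAt (fun φ => B (φ + β) - B (φ - β)) (E (φ + β) - E (φ - β)) φ :=
      ((hBd (φ + β)).comp_add_const φ β).sub ((hBd (φ - β)).comp_sub_const φ β)
    have e2 : HasDerivAt (fun φ => sin (2 * β) * E φ) (sin (2 * β) * D E φ) φ :=
      (hEd φ).const_mul _
    have e3 : (fun φ => B (φ + β) - B (φ - β)) = fun φ => sin (2 * β) * E φ :=
      funext fun φ => f1 φ β h0 h1
    rw [e3] at e1
    exact e1.unique e2
  -- derivative in `β`
  have dplus : ∀ (f f' : ℝ → ℝ), (∀ φ, HasDerivAt f (f' φ) φ) → ∀ φ β : ℝ,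
      HasDerivAt (fun β => f (φ + β)) (f' (φ + β)) β := fun f f' hf φ β =>
    (hf (φ + β)).comp_const_add φ β
  have dminus : ∀ (f f' : ℝ → ℝ), (∀ φ, HasDerivAt f (f' φ) φ) → ∀ φ β : ℝ,
      HasDerivAt (fun β => f (φ - β)) (- f' (φ - β)) β := fun f f' hf φ β =>
    (hf (φ - β)).comp_const_sub φ β
  have f3 : ∀ φ β : ℝ, 0 < β → β < π / 2 → B (φ + β) + B (φ - β) = 2 * cos (2 * β) * B φ := by
    intro φ β h0 h1
    have e1 := (dplus A B hAd φ β).sub (dminus A B hAd φ β)
    have e2 : HasDerivAt (fun β => sin (2 * β) * B φ) (2 * cos (2 * β) * B φ) β := by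
      have h2 : HasDerivAt (fun β : ℝ => 2 * β) 2 β := by
        simpa using (hasDerivAt_id β).const_mul 2
      have h3 := (h2.sin).mul_const (B φ)
      convert! h3 using 1
      ring
    have e3 : (fun β => A (φ + β) - A (φ - β)) =ᶠ[𝓝 β] fun β => sin (2 * β) * B φ := by
      filter_upwards [Ioo_mem_nhds h0 h1] with b hb
      exact f0 φ b hb.1 hb.2
    have e4 := (e2.congr_of_eventuallyEq e3).unique e1
    linarith
  have f4 : ∀ φ β : ℝ, 0 < β → β < π / 2 → E (φ + β) - E (φ - β) = - 4 * sin (2 * β) * B φ := by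
    intro φ β h0 h1
    have e1 := (dplus B E hBd φ β).add (dminus B E hBd φ β)
    have e2 : HasDerivAt (fun β => 2 * cos (2 * β) * B φ) (- 4 * sin (2 * β) * B φ) β := by
      have h2 : HasDerivAt (fun β : ℝ => 2 * β) 2 β := by
        simpa using (hasDerivAt_id β).const_mul 2
      have h3 := ((h2.cos).const_mul 2).mul_const (B φ)
      convert! h3 using 1
      ring
    have e3 : (fun β => B (φ + β) + B (φ - β)) =ᶠ[𝓝 β] fun β => 2 * cos (2 * β) * B φ := by
      filter_upwards [Ioo_mem_nhds h0 h1] with b hb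
      exact f3 φ b hb.1 hb.2
    have e4 := (e2.congr_of_eventuallyEq e3).unique e1
    linarith
  have f5 : ∀ φ, D E φ = - 4 * B φ := by
    intro φ
    have h1 := f2 φ (π / 4) (by positivity) (by linarith [pi_pos])
    have h2 := f4 φ (π / 4) (by positivity) (by linarith [pi_pos])
    rw [show 2 * (π / 4) = π / 2 by ring, sin_pi_div_two] at h1 h2
    linarith
  -- solve the differential equation
  have c2 : ∀ φ : ℝ, HasDerivAt (fun φ : ℝ => cos (2 * φ)) (- 2 * sin (2 * φ)) φ := by
    intro φ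
    have h2 : HasDerivAt (fun β : ℝ => 2 * β) 2 φ := by
      simpa using (hasDerivAt_id φ).const_mul 2
    convert! h2.cos using 1
    ring
  have s2 : ∀ φ : ℝ, HasDerivAt (fun φ : ℝ => sin (2 * φ)) (2 * cos (2 * φ)) φ := by
    intro φ
    have h2 : HasDerivAt (fun β : ℝ => 2 * β) 2 φ := by
      simpa using (hasDerivAt_id φ).const_mul 2
    convert! h2.sin using 1
    ring
  set b := B 0 with hb
  set e := E 0 with he
  set u : ℝ → ℝ := fun φ => B φ - b * cos (2 * φ) - e / 2 * sin (2 * φ) with hu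
  set v : ℝ → ℝ := fun φ => E φ + 2 * b * sin (2 * φ) - e * cos (2 * φ) with hv
  have hud : ∀ φ, HasDerivAt u (v φ) φ := by
    intro φ
    have := ((hBd φ).sub ((c2 φ).const_mul b)).sub ((s2 φ).const_mul (e / 2))
    convert! this using 1
    simp only [hv]; ring
  have hvd : ∀ φ, HasDerivAt v (- 4 * u φ) φ := by
    intro φ
    have h0 := hEd φ
    rw [f5] at h0
    have := (h0.add ((s2 φ).const_mul (2 * b))).sub ((c2 φ).const_mul e)
    convert! this using 1
    simp only [hu]; ring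
  have hG : ∀ φ, HasDerivAt (fun φ => 4 * u φ ^ 2 + v φ ^ 2) 0 φ := by
    intro φ
    have := (((hud φ).pow 2).const_mul 4).add ((hvd φ).pow 2)
    convert! this using 1
    simp; ring
  have hGc : ∀ φ, 4 * u φ ^ 2 + v φ ^ 2 = 0 := by
    intro φ
    have h0 : 4 * u 0 ^ 2 + v 0 ^ 2 = 0 := by
      simp only [hu, hv, mul_zero, sin_zero, cos_zero]
      rw [← hb, ← he]; ring
    rw [← h0]
    exact is_const_of_deriv_eq_zero (f := fun φ => 4 * u φ ^ 2 + v φ ^ 2)
      (fun x => (hG x).differentiableAt) (fun x => (hG x).deriv) φ 0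
  have hBsol : ∀ φ, B φ = b * cos (2 * φ) + e / 2 * sin (2 * φ) := by
    intro φ
    have h1 := hGc φ
    have h2 : u φ = 0 := by nlinarith [sq_nonneg (u φ), sq_nonneg (v φ)]
    simp only [hu] at h2
    linarith
  have hfin : ∀ φ, HasDerivAt (fun φ => A φ - b / 2 * sin (2 * φ) + e / 4 * cos (2 * φ)) 0 φ := by
    intro φ
    have := ((hAd φ).sub ((s2 φ).const_mul (b / 2))).add ((c2 φ).const_mul (e / 4))
    convert! this using 1
    rw [hBsol]; ring
  refine ⟨A 0 + e / 4, - (e / 4), b / 2, fun φ => ?_⟩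
  have h1 := is_const_of_deriv_eq_zero
    (f := fun φ => A φ - b / 2 * sin (2 * φ) + e / 4 * cos (2 * φ))
    (fun x => (hfin x).differentiableAt) (fun x => (hfin x).deriv) φ 0
  simp only [mul_zero, sin_zero, cos_zero] at h1
  linarith

/-- the lower triangular map -/
noncomputable def tri (s m r : ℝ) (hs : s ≠ 0) (hr : r ≠ 0) : E2 ≃ₗ[ℝ] E2 where
  toFun y := !₂[s * y 0, m * y 0 + r * y 1]
  invFun z := !₂[z 0 / s, (z 1 - m * (z 0 / s)) / r]
  map_add' x y := by
    ext i; fin_cases i <;> simp <;> ring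
  map_smul' t x := by
    ext i; fin_cases i <;> simp <;> ring
  left_inv y := by
    ext i; fin_cases i
    · simp; field_simp
    · simp; field_simp; ring
  right_inv z := by
    ext i; fin_cases i
    · simp; field_simp
    · simp; field_simp; ring

lemma tri_apply (s m r : ℝ) (hs : s ≠ 0) (hr : r ≠ 0) (y : E2) :
    tri s m r hs hr y = !₂[s * y 0, m * y 0 + r * y 1] := rfl

lemma cs2 (u v a b : ℝ) : (u * a + v * b) ^ 2 ≤ (u ^ 2 + v ^ 2) * (a ^ 2 + b ^ 2) := by
  nlinarith [sq_nonneg (u * b - v * a)]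

lemma le_one_of_sq {x : ℝ} (h0 : 0 ≤ x) (h : x ^ 2 ≤ x) : x ≤ 1 := by
  by_contra hcon
  push Not at hcon
  nlinarith

/-- a convex body whose centred support function squared is a quadratic form is an ellipse -/
lemma ellipse {K : Set E2} (hc : Convex ℝ K) (hK : IsCompact K) (hne : K.Nonempty) {c : E2}
    {α p q : ℝ} (hpos : ∀ φ, 0 < kk K c φ)
    (h : ∀ φ, kk K c φ ^ 2 = α + p * cos (2 * φ) + q * sin (2 * φ)) :
    ∃ f : E2 ≃ᵃ[ℝ] E2, K = f '' Metric.closedBall 0 1 := by
  have h0 : 0 < α + p := by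
    have := h 0
    simp only [mul_zero, cos_zero, sin_zero] at this
    have h1 := hpos 0
    nlinarith
  have h1 : 0 < α - p := by
    have := h (π / 2)
    rw [show 2 * (π / 2) = π by ring, cos_pi, sin_pi] at this
    have h1 := hpos (π / 2)
    nlinarith
  have hdet : q ^ 2 < (α + p) * (α - p) := by
    obtain ⟨ψ, e0, e1⟩ := exists_angle (!₂[-p, -q] : E2)
    set ρ := ‖(!₂[-p, -q] : E2)‖ with hρ
    have hρ0 : 0 ≤ ρ := norm_nonneg _
    have e0' : -p = ρ * cos ψ := by simpa using e0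
    have e1' : -q = ρ * sin ψ := by simpa using e1
    have h2 := h (ψ / 2)
    rw [show 2 * (ψ / 2) = ψ by ring] at h2
    have h3 := hpos (ψ / 2)
    have h4 : p * cos ψ + q * sin ψ = - ρ := by
      have hp : p = - (ρ * cos ψ) := by linarith
      have hq : q = - (ρ * sin ψ) := by linarith
      rw [hp, hq]
      linear_combination (- ρ) * sin_sq_add_cos_sq ψ
    have h5 : 0 < α - ρ := by
      have : 0 < kk K c (ψ / 2) ^ 2 := by positivity
      rw [h2] at this
      linarith
    have h6 : p ^ 2 + q ^ 2 = ρ ^ 2 := by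
      have h7 := norm_sq (!₂[-p, -q] : E2)
      rw [← hρ] at h7
      simp at h7
      linarith
    have hα : 0 < α := by linarith
    nlinarith
  set s := √(α + p) with hs
  have hs0 : 0 < s := Real.sqrt_pos.mpr h0
  have hs2 : s ^ 2 = α + p := Real.sq_sqrt h0.le
  set m := q / s with hm
  have hr' : 0 < α - p - m ^ 2 := by
    rw [hm, div_pow, hs2, sub_pos, div_lt_iff₀ h0]
    linarith
  set r := √(α - p - m ^ 2) with hr
  have hr0 : 0 < r := Real.sqrt_pos.mpr hr'
  have hr2 : r ^ 2 = α - p - m ^ 2 := Real.sq_sqrt hr'.le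
  have hms : s * m = q := by rw [hm]; field_simp
  have key : ∀ φ, (s * cos φ + m * sin φ) ^ 2 + (r * sin φ) ^ 2 = kk K c φ ^ 2 := by
    intro φ
    rw [h φ, cos_two_mul, sin_two_mul]
    have hsc := sin_sq_add_cos_sq φ
    have : (s * cos φ + m * sin φ) ^ 2 + (r * sin φ) ^ 2 =
        s ^ 2 * cos φ ^ 2 + 2 * (s * m) * (sin φ * cos φ) + (m ^ 2 + r ^ 2) * sin φ ^ 2 := by ring
    rw [this, hs2, hms, hr2]
    have h3 : sin φ ^ 2 = 1 - cos φ ^ 2 := by linarith
    rw [h3]; ring
  set T := tri s m r hs0.ne' hr0.ne' with hT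
  refine ⟨T.toAffineEquiv.trans (AffineEquiv.constVAdd ℝ E2 c), ?_⟩
  have himg : ∀ y : E2, (T.toAffineEquiv.trans (AffineEquiv.constVAdd ℝ E2 c)) y = c + T y := by
    intro y; rfl
  ext x
  constructor
  · intro hx
    refine ⟨T.symm (x - c), ?_, ?_⟩
    · set y := T.symm (x - c) with hy
      have hTy : T y = x - c := by rw [hy]; simp
      rw [mem_closedBall_zero_iff]
      set w : E2 := !₂[(y 0 - m * (y 1 / r)) / s, y 1 / r] with hw
      obtain ⟨φ, a0, a1⟩ := exists_angle w
      have w0 : w 0 = (y 0 - m * (y 1 / r)) / s := by simp [hw]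
      have w1 : w 1 = y 1 / r := by simp [hw]
      have b0 : s * w 0 + m * w 1 = y 0 := by rw [w0, w1]; field_simp; ring
      have b1 : r * w 1 = y 1 := by rw [w1]; field_simp
      have hy2 : ‖y‖ ^ 2 = ‖w‖ ^ 2 * kk K c φ ^ 2 := by
        rw [norm_sq, ← b0, ← b1, a0, a1, ← key]; ring
      have hyw : ‖y‖ ^ 2 = ‖w‖ * dt (x - c) φ := by
        rw [← hTy, norm_sq]
        have : dt (T y) φ = s * y 0 * cos φ + (m * y 0 + r * y 1) * sin φ := by
          rw [hT, tri_apply]; simp [dt]
        rw [this]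
        have e1 : y 0 * y 0 = y 0 * (s * (‖w‖ * cos φ) + m * (‖w‖ * sin φ)) := by
          rw [← a0, ← a1, b0]
        have e2 : y 1 * y 1 = y 1 * (r * (‖w‖ * sin φ)) := by rw [← a1, b1]
        linear_combination e1 + e2
      have hle : dt (x - c) φ ≤ kk K c φ := by
        rw [dt_sub]; unfold kk
        linarith [le_hs hK hx φ]
      have h3 := hpos φ
      have h4 : ‖y‖ = ‖w‖ * kk K c φ := by
        have : ‖y‖ ^ 2 = (‖w‖ * kk K c φ) ^ 2 := by rw [hy2]; ring
        exact (pow_left_inj₀ (norm_nonneg _) (by positivity) two_ne_zero).mp this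
      have h5 : ‖y‖ ^ 2 ≤ ‖y‖ := by
        rw [hyw, h4]
        exact mul_le_mul_of_nonneg_left hle (norm_nonneg _)
      exact le_one_of_sq (norm_nonneg _) h5
    · rw [himg]; simp
  · rintro ⟨y, hy, rfl⟩
    rw [himg]
    rw [mem_closedBall_zero_iff] at hy
    apply mem_of_le_hs hK hc _ hne
    intro φ
    rw [dt_add]
    have e1 : dt (T y) φ = y 0 * (s * cos φ + m * sin φ) + y 1 * (r * sin φ) := by
      rw [hT, tri_apply]; simp [dt]; ring
    have e2 : dt (T y) φ ≤ kk K c φ := by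
      apply abs_le_of_sq_le_sq' _ (hpos φ).le |>.2
      rw [e1, ← key]
      have h3 : ‖y‖ ^ 2 ≤ 1 := pow_le_one₀ (norm_nonneg y) hy
      rw [norm_sq] at h3
      have h4 := cs2 (y 0) (y 1) (s * cos φ + m * sin φ) (r * sin φ)
      have h5 : (y 0 ^ 2 + y 1 ^ 2) * ((s * cos φ + m * sin φ) ^ 2 + (r * sin φ) ^ 2) ≤
          1 * ((s * cos φ + m * sin φ) ^ 2 + (r * sin φ) ^ 2) :=
        mul_le_mul_of_nonneg_right h3 (by positivity)
      rw [one_mul] at h5
      exact h4.trans h5
    unfold kk at e2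
    linarith

/-- **Transitive convex bodies are ellipses.** -/
theorem main {K : Set E2} (hc : Convex ℝ K) (hK : IsCompact K) (hi : (interior K).Nonempty)
    (hT : Tr K) : ∃ f : E2 ≃ᵃ[ℝ] E2, K = f '' Metric.closedBall 0 1 := by
  have hne := hi.mono interior_subset
  obtain ⟨C, hC⟩ := kk_lip hK hne (cen K)
  obtain ⟨α, p, q, h⟩ := solve hC fun φ A' hA β h0 h1 => fe_of_deriv hc hK hi hT hA h0 h1
  exact ellipse hc hK hne (kk_pos hc hK hi hT) h

lemma hull_perim {K : Set E2} (hc : Convex ℝ K) (hK : IsCompact K) (hi : (interior K).Nonempty)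
    (x : E2) : ((Measure.hausdorffMeasure 1 : Measure E2)
      (frontier (convexHull ℝ (insert x K)))).toReal = FF K x := by
  have hne := hi.mono interior_subset
  rw [cauchy (convex_convexHull ℝ _) (isCompact_hull hK hc hne x)
    (hi.mono (interior_mono ((subset_insert x K).trans (subset_convexHull ℝ _))))]
  unfold FF
  congr 1
  ext θ
  exact hs_hull hK hc hne x θ

end Pool.Agent.TH589.SC
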